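import Mathlib

set_option autoImplicit false
open Set Filter Topology Metric
open scoped NNReal

namespace Pool.Agent.Helper67

/-- Local solutions of an autonomous globally Lipschitz ODE exist on a time interval whose length
does not depend on the initial point. -/
theorem exists_local_solution {E : Type*} [NormedAddCommGroup E] [NormedSpace ℝ E] [CompleteSpace E]
    {v : E → E} {K : ℝ≥0} (hv : LipschitzWith K v) (x : E) :
    ∃ α : ℝ → E, α 0 = x ∧ ∀ t ∈ Icc (-(1 / (2 * ((K : ℝ) + 1)))) (1 / (2 * ((K : ℝ) + 1))),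
      HasDerivWithinAt α (v (α t)) (Icc (-(1 / (2 * ((K : ℝ) + 1)))) (1 / (2 * ((K : ℝ) + 1)))) t := by
  set ε : ℝ := 1 / (2 * ((K : ℝ) + 1)) with hε
  have hK : (0 : ℝ) ≤ K := K.2
  have hεpos : 0 < ε := by positivity
  have hKε : (K : ℝ) * ε ≤ 1 / 2 := by
    rw [hε, mul_one_div, div_le_div_iff₀ (by positivity) (by norm_num)]
    nlinarith
  set a : ℝ≥0 := ⟨2 * ε * ‖v x‖, by positivity⟩ with ha
  set L : ℝ≥0 := ⟨2 * ‖v x‖, by positivity⟩ with hL
  have hmem : (0 : ℝ) ∈ Icc (-ε) ε := ⟨by linarith, by linarith⟩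
  have hpl : IsPicardLindelof (fun _ => v) (⟨0, hmem⟩ : Icc (-ε) ε) x a 0 L K := by
    apply IsPicardLindelof.of_time_independent
    · intro y hy
      have h1 : ‖v y‖ ≤ ‖v y - v x‖ + ‖v x‖ := norm_le_norm_sub_add _ _
      have h2 : ‖v y - v x‖ ≤ K * ‖y - x‖ := hv.norm_sub_le _ _
      have h3 : ‖y - x‖ ≤ 2 * ε * ‖v x‖ := by
        rw [mem_closedBall_iff_norm] at hy
        exact hy
      have h4 : (K : ℝ) * ‖y - x‖ ≤ ‖v x‖ := by
        calc (K : ℝ) * ‖y - x‖ ≤ K * (2 * ε * ‖v x‖) := by gcongr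
          _ = 2 * (K * ε) * ‖v x‖ := by ring
          _ ≤ 2 * (1 / 2) * ‖v x‖ := by gcongr
          _ = ‖v x‖ := by ring
      show ‖v y‖ ≤ 2 * ‖v x‖
      linarith
    · exact hv.lipschitzOnWith
    · show (2 * ‖v x‖) * max (ε - 0) (0 - (-ε)) ≤ (2 * ε * ‖v x‖) - ((0 : ℝ≥0) : ℝ)
      simp
      apply le_of_eq
      ring
  obtain ⟨α, h0, h1⟩ := hpl.exists_eq_forall_mem_Icc_hasDerivWithinAt₀
  exact ⟨α, h0, h1⟩

/-- Global existence for autonomous globally Lipschitz ODEs (forward in time). -/
theorem exists_global_solution {E : Type*} [NormedAddCommGroup E] [NormedSpace ℝ E]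
    [CompleteSpace E] {v : E → E} {K : ℝ≥0} (hv : LipschitzWith K v) (x₀ : E) :
    ∃ α : ℝ → E, α 0 = x₀ ∧ ∀ t, 0 ≤ t → HasDerivAt α (v (α t)) t := by
  choose loc hloc0 hloc using fun x => exists_local_solution hv x
  set ε : ℝ := 1 / (2 * ((K : ℝ) + 1)) with hε
  have hK : (0 : ℝ) ≤ K := K.2
  have hεpos : 0 < ε := by positivity
  let X : ℕ → E := fun n => Nat.rec x₀ (fun _ y => loc y ε) n
  have hX0 : X 0 = x₀ := rfl
  have hXs : ∀ n, X (n + 1) = loc (X n) ε := fun n => rfl
  let α : ℝ → E := fun t => loc (X ⌊t / ε⌋₊) (t - ⌊t / ε⌋₊ * ε)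
  have key : ∀ (n : ℕ) (s : ℝ), n * ε ≤ s → s < (n + 1) * ε → α s = loc (X n) (s - n * ε) := by
    intro n s h1 h2
    have hfl : ⌊s / ε⌋₊ = n := by
      rw [Nat.floor_eq_iff (by
        apply div_nonneg _ hεpos.le
        exact le_trans (by positivity) h1)]
      constructor
      · rw [le_div_iff₀ hεpos]; exact h1
      · rw [div_lt_iff₀ hεpos]; exact h2
    simp only [α, hfl]
  have keyneg : ∀ s : ℝ, s < ε → α s = loc (X 0) s := by
    intro s hs
    have hfl : ⌊s / ε⌋₊ = 0 := by
      rw [Nat.floor_eq_zero]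
      rw [div_lt_one hεpos]; exact hs
    simp only [α, hfl]
    simp
  have keyend : ∀ (n : ℕ) (s : ℝ), n * ε ≤ s → s ≤ (n + 1) * ε → α s = loc (X n) (s - n * ε) := by
    intro n s h1 h2
    rcases lt_or_eq_of_le h2 with h | h
    · exact key n s h1 h
    · have h3 : α s = loc (X (n + 1)) (s - ((n + 1 : ℕ) : ℝ) * ε) := by
        apply key (n + 1) s
        · push_cast; linarith
        · push_cast; rw [h]; nlinarith
      rw [h3]
      have h4 : s - ((n + 1 : ℕ) : ℝ) * ε = 0 := by push_cast; linarith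
      rw [h4, hloc0, hXs]
      congr 1
      rw [h]; ring
  -- derivative of a piece
  have piece : ∀ (n : ℕ) (s : ℝ), -ε ≤ s - n * ε → s - n * ε ≤ ε →
      HasDerivWithinAt (fun r => loc (X n) (r - n * ε)) (v (loc (X n) (s - n * ε)))
        (Icc (n * ε - ε) (n * ε + ε)) s := by
    intro n s h1 h2
    have h := hloc (X n) (s - n * ε) ⟨h1, h2⟩
    have hsub : HasDerivWithinAt (fun r : ℝ => r - n * ε) 1 (Icc (n * ε - ε) (n * ε + ε)) s :=
      ((hasDerivAt_id s).sub_const _).hasDerivWithinAt
    have := HasDerivWithinAt.scomp (h := fun r : ℝ => r - n * ε) s h hsub (by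
      intro r hr
      simp only [mem_Icc] at hr ⊢
      constructor <;> linarith [hr.1, hr.2])
    simpa [Function.comp_def] using this
  refine ⟨α, ?_, ?_⟩
  · rw [keyneg 0 hεpos, hloc0, hX0]
  intro t ht
  set n := ⌊t / ε⌋₊ with hn
  have htn1 : n * ε ≤ t := by
    have := Nat.floor_le (div_nonneg ht hεpos.le)
    rw [le_div_iff₀ hεpos] at this
    exact this
  have htn2 : t < (n + 1) * ε := by
    have := Nat.lt_floor_add_one (t / ε)
    rw [div_lt_iff₀ hεpos] at this
    exact this
  have hαt : α t = loc (X n) (t - n * ε) := key n t htn1 htn2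
  -- right derivative
  have hR : HasDerivWithinAt α (v (α t)) (Ici t) t := by
    have h1 := piece n t (by linarith) (by linarith)
    rw [← hαt] at h1
    have h2 : HasDerivWithinAt (fun r => loc (X n) (r - n * ε)) (v (α t)) (Ici t) t := by
      apply h1.mono_of_mem_nhdsWithin
      rw [mem_nhdsWithin]
      refine ⟨Iio (n * ε + ε), isOpen_Iio, by simp only [mem_Iio]; linarith, ?_⟩
      intro r hr
      simp only [mem_inter_iff, mem_Iio, mem_Ici] at hr
      exact ⟨by linarith [hr.2], hr.1.le⟩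
    apply h2.congr_of_eventuallyEq
    · have : Ico t ((n + 1) * ε) ∈ 𝓝[≥] t := Ico_mem_nhdsGE htn2
      filter_upwards [this] with r hr
      exact key n r (le_trans htn1 hr.1) hr.2
    · exact hαt
  have hL : HasDerivWithinAt α (v (α t)) (Iic t) t := by
    rcases lt_or_eq_of_le htn1 with h | h
    · have h1 := piece n t (by linarith) (by linarith)
      rw [← hαt] at h1
      have h2 : HasDerivWithinAt (fun r => loc (X n) (r - n * ε)) (v (α t)) (Iic t) t := by
        apply h1.mono_of_mem_nhdsWithin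
        rw [mem_nhdsWithin]
        refine ⟨Ioi (n * ε - ε), isOpen_Ioi, by simp only [mem_Ioi]; linarith, ?_⟩
        intro r hr
        simp only [mem_inter_iff, mem_Ioi, mem_Iic] at hr
        exact ⟨hr.1.le, by linarith [hr.2]⟩
      apply h2.congr_of_eventuallyEq
      · have : Ioc (n * ε) t ∈ 𝓝[≤] t := Ioc_mem_nhdsLE h
        filter_upwards [this] with r hr
        exact key n r hr.1.le (lt_of_le_of_lt hr.2 htn2)
      · exact hαt
    · rcases Nat.eq_zero_or_pos n with h0 | hpos
      · -- t = 0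
        have ht0 : t = 0 := by rw [← h, h0]; simp
        have h1 := hloc (X 0) 0 ⟨by linarith, hεpos.le⟩
        have e1 : α t = loc (X 0) 0 := by rw [ht0]; exact keyneg 0 hεpos
        have h2 : HasDerivWithinAt (loc (X 0)) (v (α t)) (Iic t) t := by
          rw [e1, ht0]
          apply h1.mono_of_mem_nhdsWithin
          rw [mem_nhdsWithin]
          refine ⟨Ioi (-ε), isOpen_Ioi, by simp only [mem_Ioi]; linarith, ?_⟩
          intro r hr
          simp only [mem_inter_iff, mem_Ioi, mem_Iic] at hr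
          exact ⟨hr.1.le, by linarith [hr.2]⟩
        apply h2.congr_of_eventuallyEq
        · have : Iic t ∈ 𝓝[≤] t := self_mem_nhdsWithin
          filter_upwards [this] with r hr
          exact keyneg r (by simp only [mem_Iic] at hr; linarith)
        · rw [e1, ht0]
      · obtain ⟨m, hm⟩ : ∃ m : ℕ, n = m + 1 := ⟨n - 1, by omega⟩
        have htm : t = (m + 1) * ε := by rw [← h, hm]; push_cast; ring
        have e1 : α t = loc (X m) (t - m * ε) := keyend m t (by rw [htm]; nlinarith) (by rw [htm])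
        have h1 := piece m t (by rw [htm]; nlinarith) (by rw [htm]; nlinarith)
        rw [← e1] at h1
        have h2 : HasDerivWithinAt (fun r => loc (X m) (r - m * ε)) (v (α t)) (Iic t) t := by
          apply h1.mono_of_mem_nhdsWithin
          rw [mem_nhdsWithin]
          refine ⟨Ioi (m * ε - ε), isOpen_Ioi, by simp only [mem_Ioi]; rw [htm]; nlinarith, ?_⟩
          intro r hr
          simp only [mem_inter_iff, mem_Ioi, mem_Iic] at hr
          exact ⟨hr.1.le, by have := hr.2; rw [htm] at this; linarith⟩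
        apply h2.congr_of_eventuallyEq
        · have : Ioc (m * ε) t ∈ 𝓝[≤] t := Ioc_mem_nhdsLE (by rw [htm]; nlinarith)
          filter_upwards [this] with r hr
          exact keyend m r hr.1.le (by rw [← htm]; exact hr.2)
        · exact e1
  have := hL.union hR
  rwa [Iic_union_Ici, hasDerivWithinAt_univ] at this

end Pool.Agent.Helper67
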