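import Mathlib
import Pool.Agent.Helper67.ODEGlobal

set_option autoImplicit false
open Set Filter Topology Metric
open scoped NNReal

namespace Pool.Agent.Helper67.Chua

/-- The nonlinearity `f(s) = γ s + δ (|s+1| - |s-1|)` with `γ = -5/7`, `δ = -3/14`. -/
noncomputable def f (s : ℝ) : ℝ := (-5/7 : ℝ) * s + (-3/14 : ℝ) * (|s + 1| - |s - 1|)

/-- `(x1, x2, x3)` solves the transmitter system `C₁` for all times `t ≥ 0`. -/
def Transmitter (x1 x2 x3 : ℝ → ℝ) : Prop :=
  ∀ t : ℝ, 0 ≤ t →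
    HasDerivAt x1 (9 * (x2 t - x1 t - f (x1 t))) t ∧
    HasDerivAt x2 (x1 t + x3 t - x2 t) t ∧
    HasDerivAt x3 (-(100/7 : ℝ) * x2 t) t

/-- `(y1, y2, y3)` solves the receiver system `C₂` with gain `k`, driven by `x2`, for all times
`t ≥ 0`. -/
def Receiver (k : ℝ) (x2 y1 y2 y3 : ℝ → ℝ) : Prop :=
  ∀ t : ℝ, 0 ≤ t →
    HasDerivAt y1 (9 * (y2 t - y1 t - f (y1 t))) t ∧
    HasDerivAt y2 (y1 t + y3 t - (1 + k) * y2 t + k * x2 t) t ∧
    HasDerivAt y3 (-(100/7 : ℝ) * y2 t) t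

/-- The trajectory `(x1, x2, x3)` is unbounded on `[0, ∞)`. -/
def UnboundedOrbit (x1 x2 x3 : ℝ → ℝ) : Prop :=
  ∀ C : ℝ, ∃ t : ℝ, 0 ≤ t ∧ C < |x1 t| + |x2 t| + |x3 t|

/-- The threshold gain `k* = (√911425 - 835)/252 ≈ 0.475`. -/
noncomputable def kStar : ℝ := (Real.sqrt 911425 - 835) / 252

/-! ### The saturation function -/

/-- saturation -/
noncomputable def sat (u : ℝ) : ℝ := (|u + 1| - |u - 1|) / 2

lemma abs_sat_le (u : ℝ) : |sat u| ≤ 1 := by
  unfold sat
  rw [abs_le]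
  rcases abs_cases (u + 1) with h | h <;> rcases abs_cases (u - 1) with h' | h' <;>
    constructor <;> linarith [h.1, h.2, h'.1, h'.2]

lemma sat_lip (u w : ℝ) : |sat u - sat w| ≤ |u - w| := by
  unfold sat
  rw [abs_le]
  rcases abs_cases (u + 1) with h | h <;> rcases abs_cases (u - 1) with h' | h' <;>
  rcases abs_cases (w + 1) with k | k <;> rcases abs_cases (w - 1) with k' | k' <;>
  rcases abs_cases (u - w) with l | l <;>
    constructor <;> linarith [h.1, h.2, h'.1, h'.2, k.1, k.2, k'.1, k'.2, l.1, l.2]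

lemma sat_of_ge {u : ℝ} (h : 1 ≤ u) : sat u = 1 := by
  unfold sat
  rw [abs_of_nonneg (by linarith), abs_of_nonneg (by linarith)]; ring

lemma sat_of_le {u : ℝ} (h : u ≤ -1) : sat u = -1 := by
  unfold sat
  rw [abs_of_nonpos (by linarith), abs_of_nonpos (by linarith)]; ring

lemma sat_diff_le {u w E : ℝ} (hE : |w - u| ≤ E) :
    |sat w - sat u| ≤ 2 * (1 + (1 + E) ^ 2) / (1 + u ^ 2) := by
  have hE0 : 0 ≤ E := le_trans (abs_nonneg _) hE
  have hpos : (0 : ℝ) < 1 + u ^ 2 := by positivity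
  rw [abs_le] at hE
  by_cases h : |u| ≤ 1 + E
  · have h1 : |sat w - sat u| ≤ 2 := by
      have := abs_sat_le w
      have := abs_sat_le u
      rw [abs_le] at *
      constructor <;> linarith [this.1, this.2]
    have h2 : (2 : ℝ) ≤ 2 * (1 + (1 + E) ^ 2) / (1 + u ^ 2) := by
      rw [le_div_iff₀ hpos]
      have : u ^ 2 ≤ (1 + E) ^ 2 := by
        rw [← sq_abs u]
        exact pow_le_pow_left₀ (abs_nonneg _) h 2
      linarith
    linarith
  · push Not at h
    have h0 : sat w - sat u = 0 := by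
      rcases abs_cases u with hu | hu
      · rw [sat_of_ge (u := u) (by linarith [hu.1]), sat_of_ge (u := w) (by linarith [hu.1])]
        ring
      · rw [sat_of_le (u := u) (by linarith [hu.1]), sat_of_le (u := w) (by linarith [hu.1])]
        ring
    rw [h0, abs_zero]
    positivity

lemma x1_rhs (x1 x2 : ℝ) :
    9 * (x2 - x1 - f x1) = 9 * x2 - 18 / 7 * x1 + 27 / 7 * sat x1 := by
  unfold f sat; ring

/-! ### Roots of the characteristic polynomials -/

/-- For gains below the threshold the outer matrix has an eigenvalue with positive real part. -/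
lemma exists_unstable_root {κ : ℝ} (h1 : 1 ≤ κ) (h2 : 126 * κ ^ 2 + 583 * κ < 1134) :
    ∃ l : ℂ, (l + 18 / 7) * (l ^ 2 + κ * l + 100 / 7) = 9 * l ∧ 0 < l.re := by
  -- real root below -(18/7 + κ)
  let P : ℝ → ℝ := fun x => (x + 18 / 7) * (x ^ 2 + κ * x + 100 / 7) - 9 * x
  have hκ : κ < 3 / 2 := by nlinarith
  have hc : Continuous P := by fun_prop
  have hA : P (-10) < 0 := by simp only [P]; nlinarith
  have hB : 0 < P (-(18 / 7 + κ)) := by simp only [P]; nlinarith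
  have hle : (-10 : ℝ) ≤ -(18 / 7 + κ) := by linarith
  obtain ⟨ν, hν, hν0⟩ := intermediate_value_Ioo hle hc.continuousOn ⟨hA, hB⟩
  simp only [P] at hν0
  have hν1 : ν < -(18 / 7 + κ) := hν.2
  have hνneg : ν < 0 := by linarith
  -- the quadratic factor  l^2 + (ν + 18/7 + κ) l - (1800/49)/ν
  set σ : ℝ := -(ν + 18 / 7 + κ) / 2 with hσ
  have hσpos : 0 < σ := by rw [hσ]; linarith
  set ρ : ℝ := -(1800 / 49) / ν with hρ
  have hρν : ρ * ν = -(1800 / 49) := by rw [hρ]; exact div_mul_cancel₀ _ (ne_of_lt hνneg)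
  -- choose square root of σ^2 - ρ with nonnegative real part
  obtain ⟨w0, hw0⟩ : ∃ w : ℂ, w ^ 2 = ((σ ^ 2 - ρ : ℝ) : ℂ) :=
    IsAlgClosed.exists_pow_nat_eq _ (by norm_num)
  obtain ⟨w, hw, hwre⟩ : ∃ w : ℂ, w ^ 2 = ((σ ^ 2 - ρ : ℝ) : ℂ) ∧ 0 ≤ w.re := by
    rcases le_total 0 w0.re with h | h
    · exact ⟨w0, hw0, h⟩
    · exact ⟨-w0, by rw [neg_sq]; exact hw0, by simpa using h⟩
  refine ⟨σ + w, ?_, by simp; linarith⟩
  have hq : ((σ : ℂ) + w) ^ 2 - 2 * σ * (σ + w) + ρ = 0 := by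
    push_cast at hw
    linear_combination hw
  -- coefficient identities
  have e1 : (ν : ℝ) + 2 * σ = -(18 / 7 + κ) := by rw [hσ]; ring
  -- from hν0: ρ = (18/7 κ + 37/7) + ν (ν + 18/7+κ)
  have e2 : ρ = 18 / 7 * κ + 37 / 7 + ν * (ν + 18 / 7 + κ) := by
    have h3 : ν * (ν ^ 2 + (18 / 7 + κ) * ν + (18 / 7 * κ + 37 / 7) - ρ) = 0 := by
      have : ν * ρ = -(1800 / 49) := by rw [mul_comm]; exact hρν
      nlinarith [hν0, this]
    rcases mul_eq_zero.mp h3 with h4 | h4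
    · exact absurd h4 (ne_of_lt hνneg)
    · linarith
  have hfac : ∀ l : ℂ, (l + 18 / 7) * (l ^ 2 + κ * l + 100 / 7) - 9 * l
      = (l - ν) * (l ^ 2 - 2 * σ * l + ρ) := by
    intro l
    have e1c : (2 : ℂ) * σ = -(ν + 18 / 7 + κ) := by
      have : (2 : ℝ) * σ = -(ν + 18 / 7 + κ) := by rw [hσ]; ring
      have h := congrArg (fun x : ℝ => (x : ℂ)) this
      push_cast at h
      exact h
    have e2c : (ρ : ℂ) = 18 / 7 * κ + 37 / 7 + ν * (ν + 18 / 7 + κ) := by
      rw [e2]; push_cast; ring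
    have e3c : (ρ : ℂ) * ν = -(1800 / 49) := by
      have h := congrArg (fun x : ℝ => (x : ℂ)) hρν
      push_cast at h
      exact h
    linear_combination l ^ 2 * e1c - l * e2c - l * ν * e1c + e3c
  have := hfac (σ + w)
  rw [hq, mul_zero] at this
  linear_combination this

end Pool.Agent.Helper67.Chua
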