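import Mathlib
import Pool.Agent.Helper67.ChuaBase

set_option autoImplicit false
open Set Filter Topology Metric
open scoped NNReal

namespace Pool.Agent.Helper67.Chua

lemma f_eq (u : ℝ) : f u = (-5/7) * u - 3 / 7 * sat u := by
  unfold f sat; ring

lemma f_lip (u w : ℝ) : |f u - f w| ≤ 8 / 7 * |u - w| := by
  have h := sat_lip u w
  have h1 : f u - f w = (-5/7) * (u - w) - 3 / 7 * (sat u - sat w) := by
    rw [f_eq, f_eq]; ring
  rw [h1]
  calc |(-5/7) * (u - w) - 3 / 7 * (sat u - sat w)|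
      ≤ |(-5/7) * (u - w)| + |3 / 7 * (sat u - sat w)| := abs_sub _ _
    _ = 5 / 7 * |u - w| + 3 / 7 * |sat u - sat w| := by
        rw [abs_mul, abs_mul]; norm_num [abs_of_nonneg, abs_of_neg]
    _ ≤ 8 / 7 * |u - w| := by linarith

/-- transmitter field -/
noncomputable def fieldT (p : Fin 3 → ℝ) : Fin 3 → ℝ :=
  ![9 * (p 1 - p 0 - f (p 0)), p 0 + p 2 - p 1, -(100/7) * p 1]

/-- joint field -/
noncomputable def fieldJ (k : ℝ) (p : Fin 6 → ℝ) : Fin 6 → ℝ :=
  ![9 * (p 1 - p 0 - f (p 0)), p 0 + p 2 - p 1, -(100/7) * p 1,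
    9 * (p 4 - p 3 - f (p 3)), p 3 + p 5 - (1 + k) * p 4 + k * p 1, -(100/7) * p 4]

lemma comp_bound {a b c d : ℝ} {a' b' c' d' D k : ℝ}
    (h1 : |a - a'| ≤ D) (h2 : |b - b'| ≤ D) (h3 : |c - c'| ≤ D) (h4 : |d - d'| ≤ D) :
    |(a + b - (1 + k) * c + k * d) - (a' + b' - (1 + k) * c' + k * d')| ≤ (100 + 2 * |k|) * D := by
  have hD : 0 ≤ D := le_trans (abs_nonneg _) h1
  have e : (a + b - (1 + k) * c + k * d) - (a' + b' - (1 + k) * c' + k * d')
      = (a - a') + (b - b') - (c - c') - k * (c - c') + k * (d - d') := by ring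
  rw [e]
  have h5 : |k * (c - c')| ≤ |k| * D := by
    rw [abs_mul]; exact mul_le_mul_of_nonneg_left h3 (abs_nonneg _)
  have h6 : |k * (d - d')| ≤ |k| * D := by
    rw [abs_mul]; exact mul_le_mul_of_nonneg_left h4 (abs_nonneg _)
  rw [abs_le] at *
  constructor <;> nlinarith [h1.1, h1.2, h2.1, h2.2, h3.1, h3.2, h5.1, h5.2, h6.1, h6.2]

lemma x1_bound {a b a' b' D : ℝ}
    (h1 : |a - a'| ≤ D) (h2 : |b - b'| ≤ D) :
    |9 * (b - a - f a) - 9 * (b' - a' - f a')| ≤ 100 * D := by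
  have hD : 0 ≤ D := le_trans (abs_nonneg _) h1
  have h3 := f_lip a a'
  have h4 : |f a - f a'| ≤ 8 / 7 * D := le_trans h3 (by linarith)
  rw [abs_le] at *
  constructor <;> nlinarith [h1.1, h1.2, h2.1, h2.2, h4.1, h4.2]

lemma x2_bound {a b c a' b' c' D : ℝ}
    (h1 : |a - a'| ≤ D) (h2 : |b - b'| ≤ D) (h3 : |c - c'| ≤ D) :
    |(a + b - c) - (a' + b' - c')| ≤ 100 * D := by
  have hD : 0 ≤ D := le_trans (abs_nonneg _) h1
  rw [abs_le] at *
  constructor <;> nlinarith [h1.1, h1.2, h2.1, h2.2, h3.1, h3.2]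

lemma x3_bound {a a' D : ℝ}
    (h1 : |a - a'| ≤ D) :
    |(-(100/7) * a) - (-(100/7) * a')| ≤ 100 * D := by
  have hD : 0 ≤ D := le_trans (abs_nonneg _) h1
  rw [abs_le] at *
  constructor <;> nlinarith [h1.1, h1.2]

lemma fieldT_lip : LipschitzWith 100 fieldT := by
  apply LipschitzWith.of_dist_le_mul
  intro p q
  have hpos : (0 : ℝ) ≤ ((100 : ℝ≥0) : ℝ) * dist p q := by positivity
  rw [dist_pi_le_iff hpos]
  have hd : ∀ i, |p i - q i| ≤ dist p q := fun i => by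
    rw [← Real.dist_eq]; exact dist_le_pi_dist p q i
  have h100 : ((100 : ℝ≥0) : ℝ) = 100 := by norm_num
  rw [h100]
  intro i
  rw [Real.dist_eq]
  fin_cases i
  · exact x1_bound (hd 0) (hd 1)
  · exact x2_bound (hd 0) (hd 2) (hd 1)
  · exact x3_bound (hd 1)

lemma fieldJ_lip (k : ℝ) : ∃ K : ℝ≥0, LipschitzWith K (fieldJ k) := by
  refine ⟨⟨100 + 2 * |k|, by positivity⟩, ?_⟩
  apply LipschitzWith.of_dist_le_mul
  intro p q
  have hpos : (0 : ℝ) ≤ (100 + 2 * |k|) * dist p q := by positivity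
  show dist (fieldJ k p) (fieldJ k q) ≤ (100 + 2 * |k|) * dist p q
  rw [dist_pi_le_iff hpos]
  have hd : ∀ i, |p i - q i| ≤ dist p q := fun i => by
    rw [← Real.dist_eq]; exact dist_le_pi_dist p q i
  have hle : 100 * dist p q ≤ (100 + 2 * |k|) * dist p q := by
    have : 0 ≤ |k| * dist p q := by positivity
    linarith
  intro i
  rw [Real.dist_eq]
  fin_cases i
  · exact le_trans (x1_bound (hd 0) (hd 1)) hle
  · exact le_trans (x2_bound (hd 0) (hd 2) (hd 1)) hle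
  · exact le_trans (x3_bound (hd 1)) hle
  · exact le_trans (x1_bound (hd 3) (hd 4)) hle
  · exact comp_bound (hd 3) (hd 5) (hd 4) (hd 1)
  · exact le_trans (x3_bound (hd 4)) hle

lemma comp_deriv {n : ℕ} {α : ℝ → Fin n → ℝ} {v : Fin n → ℝ} {t : ℝ} (h : HasDerivAt α v t)
    (i : Fin n) : HasDerivAt (fun s => α s i) (v i) t :=
  (hasDerivAt_pi.mp h) i

/-- Existence for the transmitter. -/
lemma exists_transmitter (x0 : Fin 3 → ℝ) : ∃ x1 x2 x3 : ℝ → ℝ,
    x1 0 = x0 0 ∧ x2 0 = x0 1 ∧ x3 0 = x0 2 ∧ Transmitter x1 x2 x3 := by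
  obtain ⟨α, h0, h1⟩ := exists_global_solution fieldT_lip x0
  refine ⟨fun t => α t 0, fun t => α t 1, fun t => α t 2, by simp [h0], by simp [h0],
    by simp [h0], ?_⟩
  intro t ht
  have h := h1 t ht
  exact ⟨comp_deriv h 0, comp_deriv h 1, comp_deriv h 2⟩

/-- Existence for the driven receiver. -/
lemma exists_receiver (k : ℝ) {x1 x2 x3 : ℝ → ℝ} (hx : Transmitter x1 x2 x3) (y0 : Fin 3 → ℝ) :
    ∃ y1 y2 y3 : ℝ → ℝ, y1 0 = y0 0 ∧ y2 0 = y0 1 ∧ y3 0 = y0 2 ∧ Receiver k x2 y1 y2 y3 := by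
  obtain ⟨K, hK⟩ := fieldJ_lip k
  obtain ⟨α, h0, h1⟩ := exists_global_solution hK ![x1 0, x2 0, x3 0, y0 0, y0 1, y0 2]
  -- uniqueness of the transmitter part
  have huniq : ∀ t, 0 ≤ t → ![α t 0, α t 1, α t 2] = ![x1 t, x2 t, x3 t] := by
    intro t ht
    have hA : ∀ s, 0 ≤ s → HasDerivAt (fun s => ![α s 0, α s 1, α s 2])
        (fieldT ![α s 0, α s 1, α s 2]) s := by
      intro s hs
      have h := h1 s hs
      rw [hasDerivAt_pi]
      intro i
      fin_cases i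
      · exact comp_deriv h 0
      · exact comp_deriv h 1
      · exact comp_deriv h 2
    have hB : ∀ s, 0 ≤ s → HasDerivAt (fun s => ![x1 s, x2 s, x3 s])
        (fieldT ![x1 s, x2 s, x3 s]) s := by
      intro s hs
      obtain ⟨g1, g2, g3⟩ := hx s hs
      rw [hasDerivAt_pi]
      intro i
      fin_cases i
      · exact g1
      · exact g2
      · exact g3
    have := ODE_solution_unique (v := fun _ => fieldT) (K := 100)
      (f := fun s => ![α s 0, α s 1, α s 2]) (g := fun s => ![x1 s, x2 s, x3 s])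
      (a := 0) (b := t) (fun _ => fieldT_lip)
      (fun s hs => (hA s hs.1).continuousAt.continuousWithinAt)
      (fun s hs => (hA s hs.1).hasDerivWithinAt)
      (fun s hs => (hB s hs.1).continuousAt.continuousWithinAt)
      (fun s hs => (hB s hs.1).hasDerivWithinAt)
      (by rw [h0]; rfl)
    exact this ⟨ht, le_refl t⟩
  refine ⟨fun t => α t 3, fun t => α t 4, fun t => α t 5, by simp [h0], by simp [h0],
    by simp [h0], ?_⟩
  intro t ht
  have h := h1 t ht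
  have hx2 : α t 1 = x2 t := congrFun (huniq t ht) 1
  refine ⟨comp_deriv h 3, ?_, comp_deriv h 5⟩
  rw [← hx2]
  exact comp_deriv h 4

end Pool.Agent.Helper67.Chua
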