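import Mathlib
import Pool.Agent.Helper67.ChuaBase

set_option autoImplicit false
open Set Filter Topology Metric
open scoped NNReal

namespace Pool.Agent.Helper67.Chua

/-- Variation of constants estimate for a scalar linear equation with bounded forcing. -/
lemma variation_bound {z w : ℝ → ℂ} {l : ℂ} {M t0 : ℝ} (hσ : l.re ≠ 0)
    (hz : ∀ t, t0 ≤ t → HasDerivAt z (l * z t + w t) t)
    (hw : ∀ t, t0 ≤ t → ‖w t‖ ≤ M) {t : ℝ} (ht : t0 ≤ t) :
    ‖Complex.exp (-l * ((t - t0 : ℝ) : ℂ)) * z t - z t0‖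
      ≤ M / l.re * (1 - Real.exp (-l.re * (t - t0))) := by
  have hder : ∀ s, t0 ≤ s → HasDerivAt
      (fun s : ℝ => Complex.exp (-l * ((s - t0 : ℝ) : ℂ)) * z s - z t0)
      (Complex.exp (-l * ((s - t0 : ℝ) : ℂ)) * w s) s := by
    intro s hs
    have h1 : HasDerivAt (fun s : ℝ => ((s - t0 : ℝ) : ℂ)) 1 s := by
      have := ((hasDerivAt_id s).sub_const t0).ofReal_comp
      simpa using this
    have h2 : HasDerivAt (fun s : ℝ => Complex.exp (-l * ((s - t0 : ℝ) : ℂ)))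
        (Complex.exp (-l * ((s - t0 : ℝ) : ℂ)) * (-l * 1)) s := by
      exact (h1.const_mul (-l)).cexp
    have h3 := (h2.mul (hz s hs)).sub_const (z t0)
    refine h3.congr_deriv ?_
    ring
  have hB : ∀ s, HasDerivAt (fun s : ℝ => M / l.re * (1 - Real.exp (-l.re * (s - t0))))
      (M * Real.exp (-l.re * (s - t0))) s := by
    intro s
    have h1 : HasDerivAt (fun s : ℝ => -l.re * (s - t0)) (-l.re * 1) s :=
      ((hasDerivAt_id s).sub_const t0).const_mul _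
    have h2 := ((h1.exp).const_sub 1).const_mul (M / l.re)
    refine h2.congr_deriv ?_
    field_simp
  have key := image_norm_le_of_norm_deriv_right_le_deriv_boundary'
    (f := fun s : ℝ => Complex.exp (-l * ((s - t0 : ℝ) : ℂ)) * z s - z t0)
    (f' := fun s : ℝ => Complex.exp (-l * ((s - t0 : ℝ) : ℂ)) * w s)
    (a := t0) (b := t)
    (fun s hs => (hder s hs.1).continuousAt.continuousWithinAt)
    (fun s hs => (hder s hs.1).hasDerivWithinAt)
    (B := fun s : ℝ => M / l.re * (1 - Real.exp (-l.re * (s - t0))))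
    (B' := fun s : ℝ => M * Real.exp (-l.re * (s - t0)))
    (by simp)
    (fun s hs => (hB s).continuousAt.continuousWithinAt)
    (fun s hs => (hB s).hasDerivWithinAt)
    (by
      intro s hs
      rw [norm_mul, Complex.norm_exp]
      have : (-l * ((s - t0 : ℝ) : ℂ)).re = -l.re * (s - t0) := by
        rw [← Complex.ofReal_re (s - t0)]
        simp
      rw [this, mul_comm]
      exact mul_le_mul_of_nonneg_right (hw s hs.1) (Real.exp_pos _).le)
  exact key ⟨ht, le_refl t⟩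

/-- Exponential growth. -/
lemma growth_bound {z w : ℝ → ℂ} {l : ℂ} {M t0 : ℝ} (hσ : 0 < l.re) (hM : 0 ≤ M)
    (hz : ∀ t, t0 ≤ t → HasDerivAt z (l * z t + w t) t)
    (hw : ∀ t, t0 ≤ t → ‖w t‖ ≤ M) {t : ℝ} (ht : t0 ≤ t) :
    (‖z t0‖ - M / l.re) * Real.exp (l.re * (t - t0)) ≤ ‖z t‖ := by
  have h1 := variation_bound (ne_of_gt hσ) hz hw ht
  have h2 : M / l.re * (1 - Real.exp (-l.re * (t - t0))) ≤ M / l.re := by
    have h3 : 0 ≤ M / l.re := by positivity
    have h4 : 1 - Real.exp (-l.re * (t - t0)) ≤ 1 := by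
      have := (Real.exp_pos (-l.re * (t - t0))).le
      linarith
    calc _ ≤ M / l.re * 1 := mul_le_mul_of_nonneg_left h4 h3
      _ = _ := mul_one _
  have h5 : ‖Complex.exp (-l * ((t - t0 : ℝ) : ℂ)) * z t‖ = Real.exp (-l.re * (t - t0)) * ‖z t‖ := by
    rw [norm_mul, Complex.norm_exp]
    have : (-l * ((t - t0 : ℝ) : ℂ)).re = -l.re * (t - t0) := by
      rw [← Complex.ofReal_re (t - t0)]
      simp
    rw [this]
  have h6 : ‖z t0‖ ≤ ‖Complex.exp (-l * ((t - t0 : ℝ) : ℂ)) * z t‖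
      + ‖Complex.exp (-l * ((t - t0 : ℝ) : ℂ)) * z t - z t0‖ := by
    have := norm_sub_norm_le (z t0) (Complex.exp (-l * ((t - t0 : ℝ) : ℂ)) * z t)
    rw [norm_sub_rev] at this
    linarith
  have h7 : ‖z t0‖ - M / l.re ≤ Real.exp (-l.re * (t - t0)) * ‖z t‖ := by
    rw [h5] at h6; linarith
  have h8 : Real.exp (-l.re * (t - t0)) * Real.exp (l.re * (t - t0)) = 1 := by
    rw [← Real.exp_add]; simp
  calc (‖z t0‖ - M / l.re) * Real.exp (l.re * (t - t0))
      ≤ (Real.exp (-l.re * (t - t0)) * ‖z t‖) * Real.exp (l.re * (t - t0)) :=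
        mul_le_mul_of_nonneg_right h7 (Real.exp_pos _).le
    _ = (Real.exp (-l.re * (t - t0)) * Real.exp (l.re * (t - t0))) * ‖z t‖ := by ring
    _ = ‖z t‖ := by rw [h8, one_mul]

/-- Boundedness in the stable case. -/
lemma decay_bound {z w : ℝ → ℂ} {l : ℂ} {M t0 : ℝ} (hσ : l.re < 0) (hM : 0 ≤ M)
    (hz : ∀ t, t0 ≤ t → HasDerivAt z (l * z t + w t) t)
    (hw : ∀ t, t0 ≤ t → ‖w t‖ ≤ M) {t : ℝ} (ht : t0 ≤ t) :
    ‖z t‖ ≤ ‖z t0‖ + M / (-l.re) := by
  have h1 := variation_bound (ne_of_lt hσ) hz hw ht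
  have h5 : ‖Complex.exp (-l * ((t - t0 : ℝ) : ℂ)) * z t‖ = Real.exp (-l.re * (t - t0)) * ‖z t‖ := by
    rw [norm_mul, Complex.norm_exp]
    have : (-l * ((t - t0 : ℝ) : ℂ)).re = -l.re * (t - t0) := by
      rw [← Complex.ofReal_re (t - t0)]
      simp
    rw [this]
  have h6 : ‖Complex.exp (-l * ((t - t0 : ℝ) : ℂ)) * z t‖ ≤ ‖z t0‖
      + ‖Complex.exp (-l * ((t - t0 : ℝ) : ℂ)) * z t - z t0‖ := by
    have := norm_sub_norm_le (Complex.exp (-l * ((t - t0 : ℝ) : ℂ)) * z t) (z t0)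
    linarith
  rw [h5] at h6
  set X := Real.exp (-l.re * (t - t0)) with hX
  have hX1 : 1 ≤ X := by
    rw [hX]; apply Real.one_le_exp
    have : 0 ≤ t - t0 := by linarith
    nlinarith
  have h7 : M / l.re * (1 - X) = M / (-l.re) * (X - 1) := by
    field_simp
    ring
  rw [h7] at h1
  have h8 : 0 ≤ M / (-l.re) := div_nonneg hM (by linarith)
  have h9 : X * ‖z t‖ ≤ X * (‖z t0‖ + M / (-l.re)) := by
    have h10 : ‖z t0‖ ≤ X * ‖z t0‖ := by
      have := norm_nonneg (z t0)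
      nlinarith
    nlinarith
  exact le_of_mul_le_mul_left h9 (by linarith)

/-! ### The eigen-functional -/

/-- the left eigenfunctional (polynomial form) -/
noncomputable def Lf (l : ℂ) (u1 u2 u3 : ℝ) : ℂ :=
  l * u1 + l * (l + 18 / 7) * u2 + (l + 18 / 7) * u3

lemma Lf_hasDerivAt {l : ℂ} {κ : ℝ}
    (hl : (l + 18 / 7) * (l ^ 2 + κ * l + 100 / 7) = 9 * l)
    {u1 u2 u3 s : ℝ → ℝ} {t : ℝ}
    (h1 : HasDerivAt u1 (9 * u2 t - 18 / 7 * u1 t + 27 / 7 * s t) t)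
    (h2 : HasDerivAt u2 (u1 t + u3 t - κ * u2 t) t)
    (h3 : HasDerivAt u3 (-(100/7 : ℝ) * u2 t) t) :
    HasDerivAt (fun t => Lf l (u1 t) (u2 t) (u3 t))
      (l * Lf l (u1 t) (u2 t) (u3 t) + 27 / 7 * l * s t) t := by
  have h := ((h1.ofReal_comp.const_mul l).add
    (h2.ofReal_comp.const_mul (l * (l + 18 / 7)))).add
    (h3.ofReal_comp.const_mul (l + 18 / 7))
  refine h.congr_deriv ?_
  unfold Lf
  push_cast
  linear_combination (-(u2 t : ℂ)) * hl

lemma norm_Lf_le (l : ℂ) (u1 u2 u3 : ℝ) :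
    ‖Lf l u1 u2 u3‖ ≤ (‖l‖ + ‖l * (l + 18 / 7)‖ + ‖l + 18 / 7‖) * (|u1| + |u2| + |u3|) := by
  unfold Lf
  have h1 := norm_add₃_le (a := l * (u1 : ℂ)) (b := l * (l + 18 / 7) * (u2 : ℂ))
    (c := (l + 18 / 7) * (u3 : ℂ))
  rw [norm_mul l, norm_mul (l * (l + 18 / 7)), norm_mul (l + 18 / 7), Complex.norm_real,
    Complex.norm_real, Complex.norm_real, Real.norm_eq_abs, Real.norm_eq_abs,
    Real.norm_eq_abs] at h1
  have a1 := abs_nonneg u1
  have a2 := abs_nonneg u2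
  have a3 := abs_nonneg u3
  have n1 := norm_nonneg l
  have n2 := norm_nonneg (l * (l + 18 / 7))
  have n3 := norm_nonneg (l + 18 / 7)
  nlinarith [mul_nonneg n1 a2, mul_nonneg n1 a3, mul_nonneg n2 a1, mul_nonneg n2 a3,
    mul_nonneg n3 a1, mul_nonneg n3 a2]

end Pool.Agent.Helper67.Chua
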