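import Mathlib
import Pool.Agent.Helper67.ChuaLin
import Pool.Agent.Helper67.ChuaEx

set_option autoImplicit false
open Set Filter Topology Metric
open scoped NNReal

namespace Pool.Agent.Helper67.Chua

lemma lt_kStar {k : ℝ} (hk : 0 < k) (h : k < kStar) :
    126 * (1 + k) ^ 2 + 583 * (1 + k) < 1134 := by
  unfold kStar at h
  rw [lt_div_iff₀ (by norm_num)] at h
  have h1 : k * 252 + 835 < Real.sqrt 911425 := by linarith
  have h2 : (k * 252 + 835) ^ 2 < 911425 := by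
    rw [← Real.sq_sqrt (show (0 : ℝ) ≤ 911425 by norm_num)]
    exact pow_lt_pow_left₀ h1 (by positivity) (by norm_num)
  nlinarith

lemma kStar_lt {k : ℝ} (h : kStar < k) :
    0 < k ∧ 1134 < 126 * (1 + k) ^ 2 + 583 * (1 + k) := by
  have hs : (835 : ℝ) < Real.sqrt 911425 := by
    rw [Real.lt_sqrt (by norm_num)]; norm_num
  unfold kStar at h
  have h0 : 0 < k := by
    refine lt_trans ?_ h
    apply div_pos (by linarith) (by norm_num)
  refine ⟨h0, ?_⟩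
  rw [div_lt_iff₀ (by norm_num)] at h
  have h1 : Real.sqrt 911425 < k * 252 + 835 := by linarith
  have h2 : (911425 : ℝ) < (k * 252 + 835) ^ 2 := by
    rw [← Real.sq_sqrt (show (0 : ℝ) ≤ 911425 by norm_num)]
    exact pow_lt_pow_left₀ h1 (Real.sqrt_nonneg _) (by norm_num)
  nlinarith

/-- error equations -/
lemma error_deriv {k : ℝ} {x1 x2 x3 y1 y2 y3 : ℝ → ℝ} (hx : Transmitter x1 x2 x3)
    (hy : Receiver k x2 y1 y2 y3) {t : ℝ} (ht : 0 ≤ t) :
    HasDerivAt (fun t => y1 t - x1 t)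
      (9 * (y2 t - x2 t) - 18 / 7 * (y1 t - x1 t) + 27 / 7 * (sat (y1 t) - sat (x1 t))) t ∧
    HasDerivAt (fun t => y2 t - x2 t)
      ((y1 t - x1 t) + (y3 t - x3 t) - (1 + k) * (y2 t - x2 t)) t ∧
    HasDerivAt (fun t => y3 t - x3 t) (-(100 / 7 : ℝ) * (y2 t - x2 t)) t := by
  obtain ⟨h1, h2, h3⟩ := hx t ht
  obtain ⟨g1, g2, g3⟩ := hy t ht
  rw [x1_rhs] at h1 g1
  refine ⟨(g1.sub h1).congr_deriv ?_, (g2.sub h2).congr_deriv ?_, (g3.sub h3).congr_deriv ?_⟩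
  all_goals ring

lemma sat_sub_le (u w : ℝ) : |sat u - sat w| ≤ 2 := by
  have h1 := abs_sat_le u
  have h2 := abs_sat_le w
  rw [abs_le] at *
  constructor <;> linarith [h1.1, h1.2, h2.1, h2.2]

/-- Below the threshold some receiver solution diverges from any given transmitter solution. -/
theorem diverge {k : ℝ} (hk : 0 < k) (hk2 : k < kStar) {x1 x2 x3 : ℝ → ℝ}
    (hx : Transmitter x1 x2 x3) :
    ∃ y1 y2 y3 : ℝ → ℝ, Receiver k x2 y1 y2 y3 ∧
      Tendsto (fun t => |x1 t - y1 t| + |x2 t - y2 t| + |x3 t - y3 t|) atTop atTop := by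
  obtain ⟨l, hl, hσ⟩ := exists_unstable_root (κ := 1 + k) (by linarith) (lt_kStar hk hk2)
  have hl0 : 0 < ‖l‖ := by
    rw [norm_pos_iff]
    rintro rfl
    simp at hσ
  set c : ℝ := 1 + (54 / 7) / l.re with hc
  have hc0 : 0 < c := by rw [hc]; positivity
  obtain ⟨y1, y2, y3, h10, h20, h30, hy⟩ :=
    exists_receiver k hx ![x1 0 + c, x2 0, x3 0]
  simp at h10 h20 h30
  refine ⟨y1, y2, y3, hy, ?_⟩
  set z : ℝ → ℂ := fun t => Lf l (y1 t - x1 t) (y2 t - x2 t) (y3 t - x3 t) with hz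
  have hzd : ∀ t, 0 ≤ t → HasDerivAt z
      (l * z t + (fun t => 27 / 7 * l * ((sat (y1 t) - sat (x1 t) : ℝ) : ℂ)) t) t := by
    intro t ht
    obtain ⟨e1, e2, e3⟩ := error_deriv hx hy ht
    exact Lf_hasDerivAt (κ := 1 + k) (by exact_mod_cast hl)
      (s := fun t => sat (y1 t) - sat (x1 t)) e1 e2 e3
  have hw : ∀ t, 0 ≤ t → ‖(fun t => 27 / 7 * l * ((sat (y1 t) - sat (x1 t) : ℝ) : ℂ)) t‖
      ≤ 54 / 7 * ‖l‖ := by
    intro t ht
    show ‖27 / 7 * l * ((sat (y1 t) - sat (x1 t) : ℝ) : ℂ)‖ ≤ _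
    rw [norm_mul, norm_mul, Complex.norm_real, Real.norm_eq_abs]
    have h2 := sat_sub_le (y1 t) (x1 t)
    have h3 : ‖(27 / 7 : ℂ)‖ = 27 / 7 := by norm_num
    rw [h3]
    nlinarith
  have hz0 : ‖z 0‖ = ‖l‖ * c := by
    simp only [hz]
    unfold Lf
    rw [h10, h20, h30]
    simp only [add_sub_cancel_left, sub_self, Complex.ofReal_zero, mul_zero, add_zero]
    rw [norm_mul, Complex.norm_real, Real.norm_eq_abs, abs_of_pos hc0]
  have hgrow : ∀ t, 0 ≤ t → ‖l‖ * Real.exp (l.re * t) ≤ ‖z t‖ := by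
    intro t ht
    have := growth_bound hσ (by positivity) hzd hw ht
    rw [hz0, sub_zero] at this
    have h4 : ‖l‖ * c - 54 / 7 * ‖l‖ / l.re = ‖l‖ := by
      rw [hc]; field_simp; ring
    rw [h4] at this
    exact this
  set C : ℝ := ‖l‖ + ‖l * (l + 18 / 7)‖ + ‖l + 18 / 7‖ with hC
  have hCpos : 0 < C := by
    have := norm_nonneg (l * (l + 18 / 7))
    have := norm_nonneg (l + 18 / 7)
    linarith
  have hbound : ∀ t, 0 ≤ t → ‖l‖ / C * Real.exp (l.re * t) ≤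
      |x1 t - y1 t| + |x2 t - y2 t| + |x3 t - y3 t| := by
    intro t ht
    have h1 := hgrow t ht
    have h2 := norm_Lf_le l (y1 t - x1 t) (y2 t - x2 t) (y3 t - x3 t)
    rw [abs_sub_comm (y1 t), abs_sub_comm (y2 t), abs_sub_comm (y3 t)] at h2
    have h3 : ‖l‖ * Real.exp (l.re * t) ≤ C * (|x1 t - y1 t| + |x2 t - y2 t| + |x3 t - y3 t|) :=
      le_trans h1 h2
    rw [div_mul_eq_mul_div, div_le_iff₀ hCpos]
    linarith
  have hexp : Tendsto (fun t : ℝ => ‖l‖ / C * Real.exp (l.re * t)) atTop atTop := by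
    apply Tendsto.const_mul_atTop (by positivity)
    apply Real.tendsto_exp_atTop.comp
    exact tendsto_id.const_mul_atTop hσ
  refine tendsto_atTop_mono' atTop ?_ hexp
  filter_upwards [eventually_ge_atTop (0 : ℝ)] with t ht using hbound t ht

/-! ### Unbounded transmitter orbits tend to infinity -/

lemma unstable_root_im_ne {l : ℂ} (hl : (l + 18 / 7) * (l ^ 2 + 1 * l + 100 / 7) = 9 * l)
    (hσ : 0 < l.re) : l.im ≠ 0 := by
  intro h
  have hl' : l = (l.re : ℂ) := by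
    apply Complex.ext <;> simp [h]
  rw [hl'] at hl
  have h2 : (l.re + 18 / 7) * (l.re ^ 2 + 1 * l.re + 100 / 7) = 9 * l.re := by
    have h3 : (((l.re + 18 / 7) * (l.re ^ 2 + 1 * l.re + 100 / 7) : ℝ) : ℂ)
        = ((9 * l.re : ℝ) : ℂ) := by
      push_cast
      exact hl
    exact Complex.ofReal_injective h3
  nlinarith [mul_pos hσ hσ, mul_pos (mul_pos hσ hσ) hσ]

/-- recovering the state from the two functionals -/
lemma recover {l : ℂ} (ν M N : ℝ) (him : l.im ≠ 0) :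
    ∃ R : ℝ, ∀ u1 u2 u3 : ℝ, ‖Lf l u1 u2 u3‖ ≤ M → ‖Lf (ν : ℂ) u1 u2 u3‖ ≤ N →
      |u1| + |u2| + |u3| ≤ R := by
  set r := l.re with hr
  set ω := l.im with hω
  have hωpos : 0 < |ω| := abs_pos.mpr him
  have hω2 : 0 < ω ^ 2 := by positivity
  have hQ : 0 < (ν - r) ^ 2 + ω ^ 2 := by positivity
  set RA := (N + M + |ν - r| * (M / |ω|)) / ((ν - r) ^ 2 + ω ^ 2) with hRA
  set RB := M / |ω| + 2 * |r| * RA with hRB
  set RC := N + ν ^ 2 * RA + |ν| * RB with hRC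
  refine ⟨(RB + 3 * RA + RC) + RA + RC, ?_⟩
  intro u1 u2 u3 h1 h2
  set B : ℝ := u1 + 18 / 7 * u2 + u3 with hB
  have him1 : (Lf l u1 u2 u3).im = ω * (2 * r * u2 + B) := by
    unfold Lf
    simp [Complex.add_im, Complex.mul_im, Complex.mul_re]
    rw [hB]
    ring
  have hre1 : (Lf l u1 u2 u3).re = u2 * (r ^ 2 - ω ^ 2) + B * r + 18 / 7 * u3 := by
    unfold Lf
    simp [Complex.add_im, Complex.mul_im, Complex.mul_re]
    rw [hB]
    ring
  have hν1 : (Lf (ν : ℂ) u1 u2 u3).re = u2 * ν ^ 2 + B * ν + 18 / 7 * u3 := by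
    unfold Lf
    simp [Complex.add_im, Complex.mul_im, Complex.mul_re]
    rw [hB]
    ring
  have b1 : |2 * r * u2 + B| ≤ M / |ω| := by
    rw [le_div_iff₀ hωpos]
    have := le_trans (Complex.abs_im_le_norm _) h1
    rw [him1, abs_mul] at this
    linarith
  have b2 : |u2 * (r ^ 2 - ω ^ 2) + B * r + 18 / 7 * u3| ≤ M := by
    rw [← hre1]; exact le_trans (Complex.abs_re_le_norm _) h1
  have b3 : |u2 * ν ^ 2 + B * ν + 18 / 7 * u3| ≤ N := by
    rw [← hν1]; exact le_trans (Complex.abs_re_le_norm _) h2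
  have cA : |u2| ≤ RA := by
    rw [hRA, le_div_iff₀ hQ]
    have e : u2 * ((ν - r) ^ 2 + ω ^ 2) = (u2 * ν ^ 2 + B * ν + 18 / 7 * u3)
        - (u2 * (r ^ 2 - ω ^ 2) + B * r + 18 / 7 * u3) - (ν - r) * (2 * r * u2 + B) := by ring
    have e2 : |u2| * ((ν - r) ^ 2 + ω ^ 2) = |u2 * ((ν - r) ^ 2 + ω ^ 2)| := by
      rw [abs_mul, abs_of_pos hQ]
    rw [e2, e]
    have h5 : |(ν - r) * (2 * r * u2 + B)| ≤ |ν - r| * (M / |ω|) := by
      rw [abs_mul]; exact mul_le_mul_of_nonneg_left b1 (abs_nonneg _)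
    have h6 := abs_sub (u2 * ν ^ 2 + B * ν + 18 / 7 * u3 - (u2 * (r ^ 2 - ω ^ 2) + B * r + 18 / 7 * u3)) ((ν - r) * (2 * r * u2 + B))
    have h7 := abs_sub (u2 * ν ^ 2 + B * ν + 18 / 7 * u3) (u2 * (r ^ 2 - ω ^ 2) + B * r + 18 / 7 * u3)
    linarith
  have cB : |B| ≤ RB := by
    have e : B = (2 * r * u2 + B) - 2 * r * u2 := by ring
    rw [e, hRB]
    have h6 := abs_sub (2 * r * u2 + B) (2 * r * u2)
    have h7 : |2 * r * u2| ≤ 2 * |r| * RA := by
      rw [abs_mul, abs_mul, abs_two]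
      exact mul_le_mul_of_nonneg_left cA (by positivity)
    linarith
  have cC : |18 / 7 * u3| ≤ RC := by
    have e : 18 / 7 * u3 = (u2 * ν ^ 2 + B * ν + 18 / 7 * u3) - u2 * ν ^ 2 - B * ν := by ring
    rw [e, hRC]
    have h6 := abs_sub ((u2 * ν ^ 2 + B * ν + 18 / 7 * u3) - u2 * ν ^ 2) (B * ν)
    have h7 := abs_sub (u2 * ν ^ 2 + B * ν + 18 / 7 * u3) (u2 * ν ^ 2)
    have h8 : |u2 * ν ^ 2| ≤ ν ^ 2 * RA := by
      rw [abs_mul, abs_of_nonneg (sq_nonneg ν), mul_comm]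
      exact mul_le_mul_of_nonneg_left cA (sq_nonneg _)
    have h9 : |B * ν| ≤ |ν| * RB := by
      rw [abs_mul, mul_comm]
      exact mul_le_mul_of_nonneg_left cB (abs_nonneg _)
    linarith
  have c3 : |u3| ≤ RC := by
    have : |18 / 7 * u3| = 18 / 7 * |u3| := by
      rw [abs_mul]; norm_num
    rw [this] at cC
    linarith [abs_nonneg u3]
  have c1 : |u1| ≤ RB + 3 * RA + RC := by
    have e : u1 = B - 18 / 7 * u2 - u3 := by rw [hB]; ring
    rw [e]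
    have h6 := abs_sub (B - 18 / 7 * u2) u3
    have h7 := abs_sub B (18 / 7 * u2)
    have h8 : |18 / 7 * u2| ≤ 3 * RA := by
      rw [abs_mul]; norm_num
      linarith [abs_nonneg u2]
    linarith
  linarith

lemma transmitter_lin {x1 x2 x3 : ℝ → ℝ} (hx : Transmitter x1 x2 x3) {t : ℝ} (ht : 0 ≤ t) :
    HasDerivAt x1 (9 * x2 t - 18 / 7 * x1 t + 27 / 7 * sat (x1 t)) t ∧
    HasDerivAt x2 (x1 t + x3 t - 1 * x2 t) t ∧
    HasDerivAt x3 (-(100/7 : ℝ) * x2 t) t := by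
  obtain ⟨h1, h2, h3⟩ := hx t ht
  rw [x1_rhs] at h1
  exact ⟨h1, h2.congr_deriv (by ring), h3⟩

/-- the real stable eigenvalue of the outer transmitter matrix -/
lemma exists_stable_root : ∃ ν : ℝ, -4 < ν ∧ ν < -3 ∧
    (ν + 18 / 7) * (ν ^ 2 + 1 * ν + 100 / 7) = 9 * ν := by
  let P : ℝ → ℝ := fun x => (x + 18 / 7) * (x ^ 2 + 1 * x + 100 / 7) - 9 * x
  have hc : Continuous P := by fun_prop
  have hA : P (-4) < 0 := by simp only [P]; norm_num
  have hB : 0 < P (-3) := by simp only [P]; norm_num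
  obtain ⟨ν, hν, hν0⟩ := intermediate_value_Ioo (by norm_num : (-4 : ℝ) ≤ -3) hc.continuousOn
    ⟨hA, hB⟩
  simp only [P] at hν0
  exact ⟨ν, hν.1, hν.2, by linarith⟩

/-- The stable functional stays bounded along every transmitter solution. -/
lemma stable_bounded {x1 x2 x3 : ℝ → ℝ} (hx : Transmitter x1 x2 x3) {ν : ℝ} (h1 : ν < -3)
    (hν : (ν + 18 / 7) * (ν ^ 2 + 1 * ν + 100 / 7) = 9 * ν) :
    ∃ Z : ℝ, 0 ≤ Z ∧ ∀ t, 0 ≤ t → ‖Lf (ν : ℂ) (x1 t) (x2 t) (x3 t)‖ ≤ Z := by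
  have hνc : ((ν : ℂ) + 18 / 7) * ((ν : ℂ) ^ 2 + ((1 : ℝ) : ℂ) * ν + 100 / 7) = 9 * (ν : ℂ) := by
    have h3 := congrArg (fun x : ℝ => (x : ℂ)) hν
    push_cast at h3
    rw [Complex.ofReal_one]
    exact h3
  set z : ℝ → ℂ := fun t => Lf (ν : ℂ) (x1 t) (x2 t) (x3 t) with hz
  have hzd : ∀ t, 0 ≤ t → HasDerivAt z
      ((ν : ℂ) * z t + (fun t => 27 / 7 * (ν : ℂ) * ((sat (x1 t) : ℝ) : ℂ)) t) t := by
    intro t ht
    obtain ⟨e1, e2, e3⟩ := transmitter_lin hx ht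
    exact Lf_hasDerivAt (κ := 1) hνc (s := fun t => sat (x1 t)) e1 e2 e3
  have hw : ∀ t, 0 ≤ t → ‖(fun t => 27 / 7 * (ν : ℂ) * ((sat (x1 t) : ℝ) : ℂ)) t‖
      ≤ 27 / 7 * |ν| := by
    intro t ht
    show ‖27 / 7 * (ν : ℂ) * ((sat (x1 t) : ℝ) : ℂ)‖ ≤ _
    rw [norm_mul, norm_mul, Complex.norm_real, Complex.norm_real, Real.norm_eq_abs,
      Real.norm_eq_abs]
    have h2 := abs_sat_le (x1 t)
    have h3 : ‖(27 / 7 : ℂ)‖ = 27 / 7 := by norm_num
    rw [h3]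
    have := abs_nonneg ν
    nlinarith
  refine ⟨‖z 0‖ + (27 / 7 * |ν|) / (-(ν : ℂ).re), ?_, ?_⟩
  · have : 0 ≤ (27 / 7 * |ν|) / (-(ν : ℂ).re) := by
      apply div_nonneg (by positivity)
      rw [Complex.ofReal_re]; linarith
    have := norm_nonneg (z 0)
    linarith
  · intro t ht
    exact decay_bound (by rw [Complex.ofReal_re]; linarith) (by positivity) hzd hw ht

/-- Unbounded transmitter orbits tend to infinity. -/
theorem unbounded_tendsto {x1 x2 x3 : ℝ → ℝ} (hx : Transmitter x1 x2 x3)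
    (hu : UnboundedOrbit x1 x2 x3) :
    Tendsto (fun t => |x1 t| + |x2 t| + |x3 t|) atTop atTop := by
  obtain ⟨l, hl, hσ⟩ := exists_unstable_root (κ := 1) (by norm_num) (by norm_num)
  have hl0 : 0 < ‖l‖ := by
    rw [norm_pos_iff]
    rintro rfl
    simp at hσ
  have hl1 : (l + 18 / 7) * (l ^ 2 + 1 * l + 100 / 7) = 9 * l := by
    rw [Complex.ofReal_one] at hl; exact hl
  have him := unstable_root_im_ne hl1 hσ
  obtain ⟨ν, hν1, hν2, hν⟩ := exists_stable_root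
  obtain ⟨Z, hZ0, hZ⟩ := stable_bounded hx hν2 hν
  set z : ℝ → ℂ := fun t => Lf l (x1 t) (x2 t) (x3 t) with hz
  have hzd : ∀ t, 0 ≤ t → HasDerivAt z
      (l * z t + (fun t => 27 / 7 * l * ((sat (x1 t) : ℝ) : ℂ)) t) t := by
    intro t ht
    obtain ⟨e1, e2, e3⟩ := transmitter_lin hx ht
    exact Lf_hasDerivAt (κ := 1) hl (s := fun t => sat (x1 t)) e1 e2 e3
  have hw : ∀ t, 0 ≤ t → ‖(fun t => 27 / 7 * l * ((sat (x1 t) : ℝ) : ℂ)) t‖
      ≤ 27 / 7 * ‖l‖ := by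
    intro t ht
    show ‖27 / 7 * l * ((sat (x1 t) : ℝ) : ℂ)‖ ≤ _
    rw [norm_mul, norm_mul, Complex.norm_real, Real.norm_eq_abs]
    have h2 := abs_sat_le (x1 t)
    have h3 : ‖(27 / 7 : ℂ)‖ = 27 / 7 := by norm_num
    rw [h3]
    nlinarith
  -- there is a time where z is large
  obtain ⟨R, hR⟩ := recover (l := l) ν (27 / 7 * ‖l‖ / l.re + 1) Z him
  obtain ⟨t0, ht0, hbig⟩ := hu R
  have hz0 : 27 / 7 * ‖l‖ / l.re + 1 < ‖z t0‖ := by
    by_contra hcon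
    push Not at hcon
    have := hR (x1 t0) (x2 t0) (x3 t0) hcon (hZ t0 ht0)
    linarith
  have hgrow : ∀ t, t0 ≤ t → 1 * Real.exp (l.re * (t - t0)) ≤ ‖z t‖ := by
    intro t ht
    have := growth_bound (t0 := t0) hσ (by positivity)
      (fun s hs => hzd s (le_trans ht0 hs)) (fun s hs => hw s (le_trans ht0 hs)) ht
    refine le_trans ?_ this
    apply mul_le_mul_of_nonneg_right _ (Real.exp_pos _).le
    linarith
  set C : ℝ := ‖l‖ + ‖l * (l + 18 / 7)‖ + ‖l + 18 / 7‖ with hC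
  have hCpos : 0 < C := by
    have := norm_nonneg (l * (l + 18 / 7))
    have := norm_nonneg (l + 18 / 7)
    linarith
  have hbound : ∀ t, t0 ≤ t → 1 / C * Real.exp (l.re * (t - t0)) ≤
      |x1 t| + |x2 t| + |x3 t| := by
    intro t ht
    have h1 := hgrow t ht
    have h2 := norm_Lf_le l (x1 t) (x2 t) (x3 t)
    have h3 : 1 * Real.exp (l.re * (t - t0)) ≤ C * (|x1 t| + |x2 t| + |x3 t|) :=
      le_trans h1 h2
    rw [div_mul_eq_mul_div, div_le_iff₀ hCpos]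
    linarith
  have hexp : Tendsto (fun t : ℝ => 1 / C * Real.exp (l.re * (t - t0))) atTop atTop := by
    apply Tendsto.const_mul_atTop (by positivity)
    apply Real.tendsto_exp_atTop.comp
    apply Tendsto.const_mul_atTop hσ
    exact tendsto_atTop_add_const_right _ _ tendsto_id
  refine tendsto_atTop_mono' atTop ?_ hexp
  filter_upwards [eventually_ge_atTop t0] with t ht using hbound t ht

end Pool.Agent.Helper67.Chua
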