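import Mathlib
import Pool.Agent.Helper67.ChuaDiv

set_option autoImplicit false
open Set Filter Topology Metric
open scoped NNReal

namespace Pool.Agent.Helper67.Chua

/-- Scalar differential inequality. -/
lemma gronwall_decay {G G' : ℝ → ℝ} {c r t0 : ℝ} (hc : 0 < c)
    (hG : ∀ t, t0 ≤ t → HasDerivAt G (G' t) t) (hle : ∀ t, t0 ≤ t → G' t ≤ -c * G t + r)
    {t : ℝ} (ht : t0 ≤ t) :
    G t ≤ r / c + (G t0 - r / c) * Real.exp (-c * (t - t0)) := by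
  set H : ℝ → ℝ := fun s => (G s - r / c) * Real.exp (c * (s - t0)) with hH
  have hHd : ∀ s, t0 ≤ s → HasDerivAt H
      (G' s * Real.exp (c * (s - t0)) + (G s - r / c) * (Real.exp (c * (s - t0)) * (c * 1))) s := by
    intro s hs
    have h1 : HasDerivAt (fun s : ℝ => c * (s - t0)) (c * 1) s :=
      ((hasDerivAt_id s).sub_const t0).const_mul _
    exact ((hG s hs).sub_const (r / c)).mul h1.exp
  have hanti : AntitoneOn H (Ici t0) := by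
    apply antitoneOn_of_deriv_nonpos (convex_Ici t0)
    · intro s hs
      exact (hHd s hs).continuousAt.continuousWithinAt
    · intro s hs
      rw [interior_Ici] at hs
      exact (hHd s (le_of_lt hs)).differentiableAt.differentiableWithinAt
    · intro s hs
      rw [interior_Ici] at hs
      rw [(hHd s (le_of_lt hs)).deriv]
      have h1 := hle s (le_of_lt hs)
      have h2 := Real.exp_pos (c * (s - t0))
      have h3 : G' s * Real.exp (c * (s - t0)) + (G s - r / c) * (Real.exp (c * (s - t0)) * (c * 1))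
          = (G' s + c * G s - r) * Real.exp (c * (s - t0)) := by
        field_simp
        ring
      rw [h3]
      apply mul_nonpos_of_nonpos_of_nonneg _ h2.le
      linarith
  have h4 := hanti (show t0 ∈ Ici t0 from le_refl t0) (show t ∈ Ici t0 from ht) ht
  simp only [hH, sub_self, mul_zero, Real.exp_zero, mul_one] at h4
  have h5 : Real.exp (c * (t - t0)) * Real.exp (-c * (t - t0)) = 1 := by
    rw [← Real.exp_add]; simp
  have h6 : (G t - r / c) * Real.exp (c * (t - t0)) * Real.exp (-c * (t - t0))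
      ≤ (G t0 - r / c) * Real.exp (-c * (t - t0)) :=
    mul_le_mul_of_nonneg_right h4 (Real.exp_pos _).le
  rw [mul_assoc, h5, mul_one] at h6
  linarith

/-- If `G' ≤ -c G + r(t)` with `r → 0` then `limsup G ≤ 0`. -/
lemma limsup_nonpos {G G' r : ℝ → ℝ} {c : ℝ} (hc : 0 < c)
    (hG : ∀ t, 0 ≤ t → HasDerivAt G (G' t) t) (hle : ∀ t, 0 ≤ t → G' t ≤ -c * G t + r t)
    (hr : Tendsto r atTop (𝓝 0)) {δ : ℝ} (hδ : 0 < δ) : ∀ᶠ t in atTop, G t ≤ δ := by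
  have h1 : ∀ᶠ t in atTop, r t ≤ c * δ / 2 := by
    filter_upwards [hr.eventually (gt_mem_nhds (show (0 : ℝ) < c * δ / 2 by positivity))] with t ht
    exact ht.le
  obtain ⟨T, hT⟩ := (h1.and (eventually_ge_atTop 0)).exists_forall_of_atTop
  have hT0 : 0 ≤ T := (hT T (le_refl T)).2
  have key : ∀ t, T ≤ t → G t ≤ δ / 2 + (G T - δ / 2) * Real.exp (-c * (t - T)) := by
    intro t ht
    have := gronwall_decay (r := c * δ / 2) hc (t0 := T) (fun s hs => hG s (le_trans hT0 hs))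
      (fun s hs => by
        have := hle s (le_trans hT0 hs)
        have := (hT s hs).1
        linarith) ht
    have e : c * δ / 2 / c = δ / 2 := by field_simp
    rw [e] at this
    exact this
  have hexp : Tendsto (fun t : ℝ => δ / 2 + (G T - δ / 2) * Real.exp (-c * (t - T))) atTop
      (𝓝 (δ / 2 + (G T - δ / 2) * 0)) := by
    apply Tendsto.const_add
    apply Tendsto.const_mul
    apply Real.tendsto_exp_atBot.comp
    have h2 : Tendsto (fun t : ℝ => c * (t - T)) atTop atTop :=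
      (tendsto_atTop_add_const_right _ _ tendsto_id).const_mul_atTop hc
    have h3 := tendsto_neg_atTop_atBot.comp h2
    refine h3.congr ?_
    intro t
    simp
  have hlt : δ / 2 + (G T - δ / 2) * 0 < δ := by
    rw [mul_zero, add_zero]; linarith
  filter_upwards [hexp.eventually (gt_mem_nhds hlt), eventually_ge_atTop T] with t h3 h4
  exact le_trans (key t h4) h3.le

/-- The algebraic core of the Lyapunov estimate. -/
lemma lyap_alg {b1 b2 b3 g ε : ℝ} (hb1 : 1 ≤ b1) (hb2 : 0 < b2) (hb3 : 0 < b3) (hε : 0 < ε)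
    (hε1 : ε ≤ 1) (hεT : ε * (1 + 4 * b3 / b2 + b1 ^ 2 / b2 + b2 / (4 * b3)) ≤ b1)
    (hε2 : ε * (1 + b2 / 4) ≤ b2) (hε3 : ε ≤ 4 * b3) (Y1 Y2 Y3 s : ℝ) :
    (b2 * b3 * Y1 ^ 2 + b2 * Y2 ^ 2 + Y3 ^ 2) / 2
      ≤ b2 * b3 * Y1 ^ 2 + b2 * Y2 ^ 2 + Y3 ^ 2 + ε * (Y2 * Y3) + ε * b2 / 4 * (Y1 * Y2) ∧
    2 * b2 * b3 * (Y1 * Y2) + 2 * b2 * (Y2 * (-b3 * Y1 + Y3))
      + 2 * (Y3 * (-b2 * Y2 - b1 * Y3 - g * s))
      + ε * ((-b3 * Y1 + Y3) * Y3 + Y2 * (-b2 * Y2 - b1 * Y3 - g * s))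
      + ε * b2 / 4 * (Y2 * Y2 + Y1 * (-b3 * Y1 + Y3))
      ≤ -(ε / 24) * (b2 * b3 * Y1 ^ 2 + b2 * Y2 ^ 2 + Y3 ^ 2 + ε * (Y2 * Y3)
          + ε * b2 / 4 * (Y1 * Y2))
        + (16 / ε * g ^ 2 + 4 * ε / b2 * g ^ 2) * s ^ 2 := by
  have hεb2 : 0 < ε * b2 := by positivity
  -- cross-term bounds
  have c1 : |ε * (Y2 * Y3)| ≤ ε / 2 * Y2 ^ 2 + ε / 2 * Y3 ^ 2 := by
    rw [abs_le]; constructor <;> nlinarith [sq_nonneg (Y2 + Y3), sq_nonneg (Y2 - Y3)]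
  have c2 : |ε * b2 / 4 * (Y1 * Y2)| ≤ ε * b2 / 8 * Y1 ^ 2 + ε * b2 / 8 * Y2 ^ 2 := by
    rw [abs_le]; constructor <;> nlinarith [mul_nonneg hεb2.le (sq_nonneg (Y1 + Y2)),
      mul_nonneg hεb2.le (sq_nonneg (Y1 - Y2))]
  have d1 : ε * b2 / 8 * Y1 ^ 2 ≤ b2 * b3 / 2 * Y1 ^ 2 := by
    apply mul_le_mul_of_nonneg_right _ (sq_nonneg _)
    nlinarith
  have d2 : (ε / 2 + ε * b2 / 8) * Y2 ^ 2 ≤ b2 / 2 * Y2 ^ 2 := by
    apply mul_le_mul_of_nonneg_right _ (sq_nonneg _)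
    linarith
  have d3 : ε / 2 * Y3 ^ 2 ≤ 1 / 2 * Y3 ^ 2 := by
    apply mul_le_mul_of_nonneg_right _ (sq_nonneg _)
    linarith
  rw [abs_le] at c1 c2
  set Q := b2 * b3 * Y1 ^ 2 + b2 * Y2 ^ 2 + Y3 ^ 2 with hQ
  have hV2 : Q + ε * (Y2 * Y3) + ε * b2 / 4 * (Y1 * Y2) ≤ 3 / 2 * Q := by
    rw [hQ]; linarith [c1.2, c2.2]
  refine ⟨by rw [hQ]; linarith [c1.1, c2.1], ?_⟩
  -- forcing
  have f1 : -(2 * (g * s * Y3)) ≤ ε / 16 * Y3 ^ 2 + 16 / ε * g ^ 2 * s ^ 2 := by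
    have : 0 ≤ (ε / 16 * Y3 + g * s) ^ 2 * (16 / ε) := by positivity
    have e : (ε / 16 * Y3 + g * s) ^ 2 * (16 / ε)
        = ε / 16 * Y3 ^ 2 + 2 * (g * s * Y3) + 16 / ε * g ^ 2 * s ^ 2 := by
      field_simp
      ring
    linarith
  have f2 : -(ε * (g * s * Y2)) ≤ ε / 16 * (b2 * Y2 ^ 2) + 4 * ε / b2 * g ^ 2 * s ^ 2 := by
    have : 0 ≤ (b2 * Y2 + 8 * g * s) ^ 2 * (ε / (16 * b2)) := by positivity
    have e : (b2 * Y2 + 8 * g * s) ^ 2 * (ε / (16 * b2))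
        = ε / 16 * (b2 * Y2 ^ 2) + ε * (g * s * Y2) + 4 * ε / b2 * g ^ 2 * s ^ 2 := by
      field_simp
      ring
    linarith
  -- the sum of squares identity
  have hsos : 2 * b2 * b3 * (Y1 * Y2) + 2 * b2 * (Y2 * (-b3 * Y1 + Y3))
      + 2 * (Y3 * (-b2 * Y2 - b1 * Y3 - g * s))
      + ε * ((-b3 * Y1 + Y3) * Y3 + Y2 * (-b2 * Y2 - b1 * Y3 - g * s))
      + ε * b2 / 4 * (Y2 * Y2 + Y1 * (-b3 * Y1 + Y3))
      = -(ε * b2 * b3 / 16 * (Y1 + 8 / b2 * Y3) ^ 2 + ε * b2 * b3 / 16 * (Y1 - 2 / b3 * Y3) ^ 2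
          + ε * b2 / 4 * (Y2 + 2 * b1 / b2 * Y3) ^ 2
          + ε * b2 * b3 / 8 * Y1 ^ 2 + ε * b2 / 2 * Y2 ^ 2
          + (2 * b1 - ε * (1 + 4 * b3 / b2 + b1 ^ 2 / b2 + b2 / (4 * b3))) * Y3 ^ 2)
        + (-(2 * (g * s * Y3))) + (-(ε * (g * s * Y2))) := by
    field_simp
    ring
  rw [hsos]
  have s1 : 0 ≤ ε * b2 * b3 / 16 * (Y1 + 8 / b2 * Y3) ^ 2 := by positivity
  have s2 : 0 ≤ ε * b2 * b3 / 16 * (Y1 - 2 / b3 * Y3) ^ 2 := by positivity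
  have s3 : 0 ≤ ε * b2 / 4 * (Y2 + 2 * b1 / b2 * Y3) ^ 2 := by positivity
  have s4 : ε / 8 * Y3 ^ 2 ≤
      (2 * b1 - ε * (1 + 4 * b3 / b2 + b1 ^ 2 / b2 + b2 / (4 * b3))) * Y3 ^ 2 := by
    apply mul_le_mul_of_nonneg_right _ (sq_nonneg _)
    linarith
  have s5 : ε / 8 * (b2 * Y2 ^ 2) ≤ ε * b2 / 2 * Y2 ^ 2 := by
    nlinarith [mul_nonneg hεb2.le (sq_nonneg Y2)]
  have hQ2 : ε / 24 * (Q + ε * (Y2 * Y3) + ε * b2 / 4 * (Y1 * Y2)) ≤ ε / 24 * (3 / 2 * Q) :=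
    mul_le_mul_of_nonneg_left hV2 (by positivity)
  have hY1 : 0 ≤ ε / 16 * (b2 * b3 * Y1 ^ 2) := by positivity
  have hfin : ε / 24 * (3 / 2 * Q) = ε / 16 * (b2 * b3 * Y1 ^ 2) + ε / 16 * (b2 * Y2 ^ 2)
      + ε / 16 * Y3 ^ 2 := by rw [hQ]; ring
  have h7 : ε * b2 * b3 / 8 * Y1 ^ 2 = 2 * (ε / 16 * (b2 * b3 * Y1 ^ 2)) := by ring
  have h8 : (16 / ε * g ^ 2 + 4 * ε / b2 * g ^ 2) * s ^ 2
      = 16 / ε * g ^ 2 * s ^ 2 + 4 * ε / b2 * g ^ 2 * s ^ 2 := by ring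
  rw [h8, h7]
  clear_value Q
  linarith [s1, s2, s3, s4, s5, f1, f2, hQ2, hY1, hfin]

lemma mul_div_le_aux {ε T b : ℝ} (hb : 0 < b) (h : ε * (T / b) ≤ 1) : ε * T ≤ b := by
  have e : ε * T = ε * (T / b) * b := by field_simp
  rw [e]
  calc ε * (T / b) * b ≤ 1 * b := mul_le_mul_of_nonneg_right h hb.le
    _ = b := one_mul b

lemma three_sq (p q r : ℝ) : (p + q + r) ^ 2 ≤ 3 * (p ^ 2 + q ^ 2 + r ^ 2) := by
  nlinarith [sq_nonneg (p - q), sq_nonneg (q - r), sq_nonneg (p - r)]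

/-- The Lyapunov function for the error system above the threshold. -/
lemma exists_lyap {κ : ℝ} (hκ : 1 < κ) (hκ2 : 1134 < 126 * κ ^ 2 + 583 * κ) :
    ∃ (V : ℝ → ℝ → ℝ → ℝ) (c C K : ℝ), 0 < c ∧ 0 ≤ C ∧ 0 < K ∧
      (∀ e1 e2 e3, e1 ^ 2 + e2 ^ 2 + e3 ^ 2 ≤ K * V e1 e2 e3) ∧
      (∀ (e1 e2 e3 : ℝ → ℝ) (s t : ℝ),
        HasDerivAt e1 (9 * e2 t - 18 / 7 * e1 t + 27 / 7 * s) t →
        HasDerivAt e2 (e1 t + e3 t - κ * e2 t) t →
        HasDerivAt e3 (-(100 / 7 : ℝ) * e2 t) t →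
        ∃ V' : ℝ, HasDerivAt (fun t => V (e1 t) (e2 t) (e3 t)) V' t ∧
          V' ≤ -c * V (e1 t) (e2 t) (e3 t) + C * s ^ 2) := by
  set b1 : ℝ := κ + 18 / 7 with hb1
  have hb1pos : 0 < b1 := by rw [hb1]; linarith
  set b3 : ℝ := (1800 / 49) / b1 with hb3
  have hb3pos : 0 < b3 := by positivity
  have hb13 : b1 * b3 = 1800 / 49 := by rw [hb3]; field_simp
  set b2 : ℝ := 100 / 7 + 18 / 7 * κ - 9 - b3 with hb2
  have hb2pos : 0 < b2 := by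
    have h1 : 0 < b1 * b2 := by
      have : b1 * b2 = b1 * (37 / 7 + 18 / 7 * κ) - b1 * b3 := by rw [hb2]; ring
      rw [this, hb13, hb1]
      linarith
    exact (mul_pos_iff_of_pos_left hb1pos).mp h1
  set T : ℝ := 1 + 4 * b3 / b2 + b1 ^ 2 / b2 + b2 / (4 * b3) with hT
  have hTpos : 0 < T := by rw [hT]; positivity
  set ε : ℝ := 1 / (1 + T / b1 + (1 + b2 / 4) / b2 + 1 / (4 * b3)) with hε
  have hden : 0 < 1 + T / b1 + (1 + b2 / 4) / b2 + 1 / (4 * b3) := by positivity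
  have hεpos : 0 < ε := by rw [hε]; positivity
  have hεmul : ε * (1 + T / b1 + (1 + b2 / 4) / b2 + 1 / (4 * b3)) = 1 := by
    rw [hε]; field_simp
  have p1 : 0 ≤ ε * (T / b1) := by positivity
  have p2 : 0 ≤ ε * ((1 + b2 / 4) / b2) := by positivity
  have p3 : 0 ≤ ε * (1 / (4 * b3)) := by positivity
  have hexp : ε + ε * (T / b1) + ε * ((1 + b2 / 4) / b2) + ε * (1 / (4 * b3)) = 1 := by
    have e : ε + ε * (T / b1) + ε * ((1 + b2 / 4) / b2) + ε * (1 / (4 * b3))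
        = ε * (1 + T / b1 + (1 + b2 / 4) / b2 + 1 / (4 * b3)) := by ring
    rw [e, hεmul]
  have hε1 : ε ≤ 1 := by linarith
  have hεT : ε * T ≤ b1 := mul_div_le_aux hb1pos (by linarith)
  have hε2 : ε * (1 + b2 / 4) ≤ b2 := mul_div_le_aux hb2pos (by linarith)
  have hε3 : ε ≤ 4 * b3 := by
    have := mul_div_le_aux (ε := ε) (T := 1) (b := 4 * b3) (by positivity) (by linarith)
    linarith
  have hb1' : 1 ≤ b1 := by rw [hb1]; linarith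
  let Y2 : ℝ → ℝ := fun e2 => -(100 / 7) * e2
  let Y3 : ℝ → ℝ → ℝ → ℝ := fun e1 e2 e3 => -(100 / 7) * (e1 - κ * e2 + e3) + b3 * e3
  let W : ℝ → ℝ → ℝ → ℝ := fun y1 y2 y3 =>
    b2 * b3 * y1 ^ 2 + b2 * y2 ^ 2 + y3 ^ 2 + ε * (y2 * y3) + ε * b2 / 4 * (y1 * y2)
  set g : ℝ := 100 / 7 * (27 / 7) with hg
  set K : ℝ := 2 * (1 / (b2 * b3) + 1 / b2
      + 3 * (κ ^ 2 / b2 + (1 + b3) ^ 2 / (b2 * b3) + 1)) with hK
  refine ⟨fun e1 e2 e3 => W e3 (Y2 e2) (Y3 e1 e2 e3), ε / 24,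
    16 / ε * g ^ 2 + 4 * ε / b2 * g ^ 2, K, by positivity, by positivity, by positivity, ?_, ?_⟩
  · intro e1 e2 e3
    have h := (lyap_alg (g := g) hb1' hb2pos hb3pos hεpos hε1 hεT hε2 hε3 e3 (Y2 e2)
      (Y3 e1 e2 e3) 0).1
    set v := W e3 (Y2 e2) (Y3 e1 e2 e3) with hv
    have h' : (b2 * b3 * e3 ^ 2 + b2 * (Y2 e2) ^ 2 + (Y3 e1 e2 e3) ^ 2) / 2 ≤ v := h
    have q1 : e3 ^ 2 ≤ 2 * (1 / (b2 * b3)) * v := by
      have hp : 0 < b2 * b3 := by positivity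
      have : b2 * b3 * e3 ^ 2 ≤ 2 * v := by
        linarith [mul_nonneg hb2pos.le (sq_nonneg (Y2 e2)), sq_nonneg (Y3 e1 e2 e3)]
      calc e3 ^ 2 = (1 / (b2 * b3)) * (b2 * b3 * e3 ^ 2) := by field_simp
        _ ≤ (1 / (b2 * b3)) * (2 * v) := mul_le_mul_of_nonneg_left this (by positivity)
        _ = _ := by ring
    have q2' : (Y2 e2) ^ 2 ≤ 2 * (1 / b2) * v := by
      have hp : 0 < b2 * b3 := by positivity
      have : b2 * (Y2 e2) ^ 2 ≤ 2 * v := by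
        linarith [mul_nonneg hp.le (sq_nonneg e3), sq_nonneg (Y3 e1 e2 e3)]
      calc (Y2 e2) ^ 2 = (1 / b2) * (b2 * (Y2 e2) ^ 2) := by field_simp
        _ ≤ (1 / b2) * (2 * v) := mul_le_mul_of_nonneg_left this (by positivity)
        _ = _ := by ring
    have q2 : e2 ^ 2 ≤ 2 * (1 / b2) * v := by
      have : e2 ^ 2 ≤ (Y2 e2) ^ 2 := by
        simp only [Y2]
        linarith [sq_nonneg e2, show (-(100 / 7) * e2) ^ 2 = 10000 / 49 * e2 ^ 2 by ring]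
      linarith
    have q3 : (Y3 e1 e2 e3) ^ 2 ≤ 2 * v := by
      have hp : 0 < b2 * b3 := by positivity
      linarith [mul_nonneg hp.le (sq_nonneg e3), mul_nonneg hb2pos.le (sq_nonneg (Y2 e2))]
    have hv0 : 0 ≤ v := by linarith [sq_nonneg (Y3 e1 e2 e3)]
    -- e1
    have e1eq : e1 = κ * e2 + (-(1 - 7 / 100 * b3) * e3) + (-(7 / 100) * Y3 e1 e2 e3) := by
      simp only [Y3]; ring
    have hsq : e1 ^ 2 ≤ 3 * ((κ * e2) ^ 2 + (-(1 - 7 / 100 * b3) * e3) ^ 2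
        + (-(7 / 100) * Y3 e1 e2 e3) ^ 2) := by
      set p := κ * e2
      set q := (-(1 - 7 / 100 * b3) * e3)
      set r := (-(7 / 100) * Y3 e1 e2 e3)
      rw [e1eq]
      exact three_sq p q r
    have t1 : (κ * e2) ^ 2 ≤ 2 * (κ ^ 2 / b2) * v := by
      calc (κ * e2) ^ 2 = κ ^ 2 * e2 ^ 2 := by ring
        _ ≤ κ ^ 2 * (2 * (1 / b2) * v) := mul_le_mul_of_nonneg_left q2 (sq_nonneg _)
        _ = _ := by ring
    have t2 : (-(1 - 7 / 100 * b3) * e3) ^ 2 ≤ 2 * ((1 + b3) ^ 2 / (b2 * b3)) * v := by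
      have h9 : (1 - 7 / 100 * b3) ^ 2 ≤ (1 + b3) ^ 2 := by
        have h10 : 0 ≤ b3 ^ 2 := sq_nonneg _
        linarith [show (1 - 7 / 100 * b3) ^ 2 = 1 - 14 / 100 * b3 + 49 / 10000 * b3 ^ 2 by ring,
          show (1 + b3) ^ 2 = 1 + 2 * b3 + b3 ^ 2 by ring]
      calc (-(1 - 7 / 100 * b3) * e3) ^ 2 = (1 - 7 / 100 * b3) ^ 2 * e3 ^ 2 := by ring
        _ ≤ (1 + b3) ^ 2 * (2 * (1 / (b2 * b3)) * v) :=
            mul_le_mul h9 q1 (sq_nonneg _) (sq_nonneg _)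
        _ = _ := by ring
    have t3 : (-(7 / 100) * Y3 e1 e2 e3) ^ 2 ≤ 2 * v := by
      linarith [sq_nonneg (Y3 e1 e2 e3),
        show (-(7 / 100) * Y3 e1 e2 e3) ^ 2 = 49 / 10000 * (Y3 e1 e2 e3) ^ 2 by ring]
    have hKv : K * v = 2 * (1 / (b2 * b3)) * v + 2 * (1 / b2) * v
        + 3 * (2 * (κ ^ 2 / b2) * v + 2 * ((1 + b3) ^ 2 / (b2 * b3)) * v + 2 * v) := by
      rw [hK]; ring
    show e1 ^ 2 + e2 ^ 2 + e3 ^ 2 ≤ K * v
    rw [hKv]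
    linarith
  · intro e1 e2 e3 s t h1 h2 h3
    have hY2 : HasDerivAt (fun t => Y2 (e2 t)) (-b3 * e3 t + Y3 (e1 t) (e2 t) (e3 t)) t := by
      have := h2.const_mul (-(100 / 7 : ℝ))
      refine this.congr_deriv ?_
      simp only [Y3]; ring
    have hY1 : HasDerivAt e3 (Y2 (e2 t)) t := h3
    have hY3 : HasDerivAt (fun t => Y3 (e1 t) (e2 t) (e3 t))
        (-b2 * Y2 (e2 t) - b1 * Y3 (e1 t) (e2 t) (e3 t) - g * s) t := by
      have := (((h1.sub (h2.const_mul κ)).add h3).const_mul (-(100 / 7 : ℝ))).add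
        (h3.const_mul b3)
      refine this.congr_deriv ?_
      simp only [Y3, Y2]
      rw [hg, hb2]
      have e : b1 * b3 = 1800 / 49 := hb13
      have hb1e : b1 = κ + 18 / 7 := hb1
      linear_combination (e3 t) * e + (-(100 / 7) * (e1 t - κ * e2 t + e3 t)) * hb1e
    refine ⟨_, ((((hY1.pow 2).const_mul (b2 * b3)).add ((hY2.pow 2).const_mul b2)).add
      (hY3.pow 2)).add ((hY2.mul hY3).const_mul ε) |>.add
      ((hY1.mul hY2).const_mul (ε * b2 / 4)), ?_⟩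
    have h := (lyap_alg (g := g) hb1' hb2pos hb3pos hεpos hε1 hεT hε2 hε3 (e3 t) (Y2 (e2 t))
      (Y3 (e1 t) (e2 t) (e3 t)) s).2
    refine le_trans (le_of_eq ?_) h
    push_cast
    ring

end Pool.Agent.Helper67.Chua
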