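import Mathlib
import Pool.Agent.Helper67.ChuaDiv

set_option autoImplicit false
open Set Filter Topology Metric
open scoped NNReal

namespace Pool.Agent.Helper67.Chua

lemma abs_le_of_sq {x R a : ℝ} (hR : 0 < R) (h : R ^ 2 = a) (hx : x ^ 2 ≤ a) : |x| ≤ R := by
  apply abs_le_of_sq_le_sq _ hR.le
  rw [h]; exact hx

lemma Wt1 {x1 x2 R C1 : ℝ} (hR : 1 ≤ R) (hC1 : 1 ≤ C1)
    (hC : R ^ 2 ≤ C1 * (1 + x1 ^ 2 + x2 ^ 2)) :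
    9 / C1 / (1 + x1 ^ 2) - 9 / R ≤ 9 * x2 ^ 2 / ((1 + x1 ^ 2) * R ^ 2) := by
  have h1 : (0 : ℝ) < 1 + x1 ^ 2 := by positivity
  have hR0 : 0 < R := by linarith
  have h2 : 9 / R ^ 2 ≤ 9 / R := by
    apply div_le_div_of_nonneg_left (by norm_num) hR0
    nlinarith
  have h3 : 9 / C1 / (1 + x1 ^ 2) ≤ 9 * x2 ^ 2 / ((1 + x1 ^ 2) * R ^ 2) + 9 / R ^ 2 := by
    have e : 9 * x2 ^ 2 / ((1 + x1 ^ 2) * R ^ 2) + 9 / R ^ 2
        = 9 * (1 + x1 ^ 2 + x2 ^ 2) / ((1 + x1 ^ 2) * R ^ 2) := by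
      field_simp
      ring
    rw [e, div_div, div_le_div_iff₀ (by positivity) (by positivity)]
    have h4 := mul_le_mul_of_nonneg_left hC (show (0 : ℝ) ≤ 9 * (1 + x1 ^ 2) by positivity)
    linarith
  linarith

lemma Wt2 {x1 x2 R : ℝ} (hR : 0 < R) (hx2 : |x2| ≤ R) :
    |18 / 7 * x1 * x2 / ((1 + x1 ^ 2) * R ^ 2)| ≤ 9 / 7 / R := by
  have h1 : (0 : ℝ) < 1 + x1 ^ 2 := by positivity
  rw [abs_div, abs_of_pos (show (0 : ℝ) < (1 + x1 ^ 2) * R ^ 2 by positivity),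
    div_le_div_iff₀ (by positivity) hR, abs_mul, abs_mul]
  have h2 : 2 * |x1| ≤ 1 + x1 ^ 2 := by
    rw [← sq_abs x1]; nlinarith [sq_nonneg (|x1| - 1)]
  have h3 : |(18 / 7 : ℝ)| = 18 / 7 := by norm_num
  rw [h3]
  have h4 : |x1| * |x2| ≤ (1 + x1 ^ 2) / 2 * R := by
    apply mul_le_mul (by linarith) hx2 (abs_nonneg _) (by positivity)
  have h5 := mul_le_mul_of_nonneg_right h4 (show 0 ≤ 18 / 7 * R by positivity)
  linarith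

lemma Wt3 {x1 x2 R σ : ℝ} (hR : 0 < R) (hx2 : |x2| ≤ R) (hσ : |σ| ≤ 1) :
    |27 / 7 * σ * x2 / ((1 + x1 ^ 2) * R ^ 2)| ≤ 27 / 7 / R := by
  have h1 : (0 : ℝ) < 1 + x1 ^ 2 := by positivity
  rw [abs_div, abs_of_pos (show (0 : ℝ) < (1 + x1 ^ 2) * R ^ 2 by positivity),
    div_le_div_iff₀ (by positivity) hR, abs_mul, abs_mul]
  have h3 : |(27 / 7 : ℝ)| = 27 / 7 := by norm_num
  rw [h3]
  have h4 : |σ| * |x2| ≤ 1 * R := mul_le_mul hσ hx2 (abs_nonneg _) (by norm_num)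
  have h5 := mul_le_mul_of_nonneg_right h4 (show 0 ≤ 27 / 7 * R by positivity)
  have h6 : 27 / 7 * R ^ 2 ≤ 27 / 7 * ((1 + x1 ^ 2) * R ^ 2) := by
    have : 0 ≤ x1 ^ 2 * R ^ 2 := by positivity
    linarith
  linarith

lemma Wt4 {x1 x2 x3 R θ : ℝ} (hR : 0 < R) (h1 : |x1| ≤ R) (h2 : |x2| ≤ R) (h3 : |x3| ≤ R)
    (hθ : |θ| ≤ 2) : |θ * (x1 + x3 - x2) / R ^ 2| ≤ 6 / R := by
  rw [abs_div, abs_of_pos (show (0 : ℝ) < R ^ 2 by positivity),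
    div_le_div_iff₀ (by positivity) hR, abs_mul]
  have h4 : |x1 + x3 - x2| ≤ 3 * R := by
    rw [abs_le] at *
    constructor <;> linarith [h1.1, h1.2, h2.1, h2.2, h3.1, h3.2]
  have h5 : |θ| * |x1 + x3 - x2| ≤ 2 * (3 * R) := mul_le_mul hθ h4 (abs_nonneg _) (by norm_num)
  have h6 := mul_le_mul_of_nonneg_right h5 hR.le
  linarith

lemma prod_bound {x y R : ℝ} (hx : |x| ≤ R) (hy : |y| ≤ R) : |x * y| ≤ R ^ 2 := by
  rw [abs_mul, sq]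
  exact mul_le_mul hx hy (abs_nonneg _) (le_trans (abs_nonneg _) hx)

lemma Wt5 {x1 x2 x3 R θ σ : ℝ} (hR : 1 ≤ R) (h1 : |x1| ≤ R) (h2 : |x2| ≤ R) (h3 : |x3| ≤ R)
    (hθ : |θ| ≤ 2) (hσ : |σ| ≤ 1) :
    |θ * x2 * (2 * x1 * (9 * x2 - 18 / 7 * x1 + 27 / 7 * σ) + 2 * x2 * (x1 + x3 - 1 * x2)
      + 2 * x3 * (-(100 / 7) * x2)) / (R ^ 2) ^ 2| ≤ 131 / R := by
  have hR0 : 0 < R := by linarith
  rw [abs_div, abs_of_pos (show (0 : ℝ) < (R ^ 2) ^ 2 by positivity),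
    div_le_div_iff₀ (by positivity) hR0, abs_mul, abs_mul]
  have hs : |σ| ≤ R := le_trans hσ hR
  have p12 := prod_bound h1 h2
  have p11 := prod_bound h1 h1
  have p1s := prod_bound h1 hs
  have p23 := prod_bound h2 h3
  have p22 := prod_bound h2 h2
  have hD : |2 * x1 * (9 * x2 - 18 / 7 * x1 + 27 / 7 * σ) + 2 * x2 * (x1 + x3 - 1 * x2)
      + 2 * x3 * (-(100 / 7) * x2)| ≤ 131 / 2 * R ^ 2 := by
    have e : 2 * x1 * (9 * x2 - 18 / 7 * x1 + 27 / 7 * σ) + 2 * x2 * (x1 + x3 - 1 * x2)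
      + 2 * x3 * (-(100 / 7) * x2) = 20 * (x1 * x2) - 36 / 7 * (x1 * x1) + 54 / 7 * (x1 * σ)
        - 186 / 7 * (x2 * x3) - 2 * (x2 * x2) := by ring
    rw [e]
    have hR2 : 0 ≤ R ^ 2 := by positivity
    rw [abs_le] at p12 p11 p1s p23 p22 ⊢
    constructor <;> linarith [p12.1, p12.2, p11.1, p11.2, p1s.1, p1s.2, p23.1, p23.2, p22.1, p22.2]
  have h5 : |θ| * |x2| ≤ 2 * R := mul_le_mul hθ h2 (abs_nonneg _) (by norm_num)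
  have h6 := mul_le_mul h5 hD (abs_nonneg _) (by positivity)
  have h7 := mul_le_mul_of_nonneg_right h6 hR0.le
  have e : 2 * R * (131 / 2 * R ^ 2) * R = 131 * (R ^ 2) ^ 2 := by ring
  linarith

lemma W_alg {x1 x2 x3 R θ σ C1 : ℝ} (hR0 : 0 < R) (hR : R ^ 2 = 1 + x1 ^ 2 + x2 ^ 2 + x3 ^ 2)
    (hC1 : 1 ≤ C1) (hC : R ^ 2 ≤ C1 * (1 + x1 ^ 2 + x2 ^ 2)) (hθ : |θ| ≤ 2) (hσ : |σ| ≤ 1) :
    9 / C1 / (1 + x1 ^ 2) - 157 / R ≤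
      (((1 / (1 + x1 ^ 2) * (9 * x2 - 18 / 7 * x1 + 27 / 7 * σ)) * x2 + θ * (x1 + x3 - 1 * x2))
        * (R ^ 2) - (θ * x2) * (2 * x1 * (9 * x2 - 18 / 7 * x1 + 27 / 7 * σ)
          + 2 * x2 * (x1 + x3 - 1 * x2) + 2 * x3 * (-(100 / 7) * x2))) / (R ^ 2) ^ 2 := by
  have hR1 : 1 ≤ R := by
    by_contra hcon
    push Not at hcon
    have : R ^ 2 < 1 := by nlinarith
    nlinarith [sq_nonneg x1, sq_nonneg x2, sq_nonneg x3]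
  have h1 : |x1| ≤ R := abs_le_of_sq hR0 hR (by nlinarith [sq_nonneg x2, sq_nonneg x3])
  have h2 : |x2| ≤ R := abs_le_of_sq hR0 hR (by nlinarith [sq_nonneg x1, sq_nonneg x3])
  have h3 : |x3| ≤ R := abs_le_of_sq hR0 hR (by nlinarith [sq_nonneg x1, sq_nonneg x2])
  have t1 := Wt1 hR1 hC1 hC
  have t2 := Wt2 (x1 := x1) hR0 h2
  have t3 := Wt3 (x1 := x1) hR0 h2 hσ
  have t4 := Wt4 hR0 h1 h2 h3 hθ
  have t5 := Wt5 hR1 h1 h2 h3 hθ hσ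
  have hpos : (0 : ℝ) < 1 + x1 ^ 2 := by positivity
  have e : (((1 / (1 + x1 ^ 2) * (9 * x2 - 18 / 7 * x1 + 27 / 7 * σ)) * x2
        + θ * (x1 + x3 - 1 * x2))
        * (R ^ 2) - (θ * x2) * (2 * x1 * (9 * x2 - 18 / 7 * x1 + 27 / 7 * σ)
          + 2 * x2 * (x1 + x3 - 1 * x2) + 2 * x3 * (-(100 / 7) * x2))) / (R ^ 2) ^ 2
      = 9 * x2 ^ 2 / ((1 + x1 ^ 2) * R ^ 2) - 18 / 7 * x1 * x2 / ((1 + x1 ^ 2) * R ^ 2)
        + 27 / 7 * σ * x2 / ((1 + x1 ^ 2) * R ^ 2) + θ * (x1 + x3 - x2) / R ^ 2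
        - θ * x2 * (2 * x1 * (9 * x2 - 18 / 7 * x1 + 27 / 7 * σ) + 2 * x2 * (x1 + x3 - 1 * x2)
      + 2 * x3 * (-(100 / 7) * x2)) / (R ^ 2) ^ 2 := by
    clear t1 t2 t3 t4 t5 hC hR
    field_simp
  rw [e]
  rw [abs_le] at t2 t3 t4 t5
  have e2 : 157 / R = 9 / R + 9 / 7 / R + 27 / 7 / R + 6 / R + 131 / R + (41 / 7) / R := by
    field_simp
    ring
  have e3 : 0 < (41 / 7) / R := by positivity
  rw [e2]
  linarith [t2.1, t2.2, t3.1, t3.2, t4.1, t4.2, t5.1, t5.2]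

/-- The auxiliary function. -/
noncomputable def W (x1 x2 x3 : ℝ) : ℝ :=
  Real.arctan x1 * x2 / (1 + x1 ^ 2 + x2 ^ 2 + x3 ^ 2)

lemma abs_arctan_le (x : ℝ) : |Real.arctan x| ≤ 2 := by
  have h1 := Real.arctan_lt_pi_div_two x
  have h2 := Real.neg_pi_div_two_lt_arctan x
  have h3 := Real.pi_lt_four
  rw [abs_le]; constructor <;> linarith

lemma W_le (x1 x2 x3 : ℝ) :
    |W x1 x2 x3| ≤ 2 / Real.sqrt (1 + x1 ^ 2 + x2 ^ 2 + x3 ^ 2) := by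
  have hD : (0 : ℝ) < 1 + x1 ^ 2 + x2 ^ 2 + x3 ^ 2 := by positivity
  set R := Real.sqrt (1 + x1 ^ 2 + x2 ^ 2 + x3 ^ 2) with hR
  have hR0 : 0 < R := Real.sqrt_pos.mpr hD
  have hR2 : R ^ 2 = 1 + x1 ^ 2 + x2 ^ 2 + x3 ^ 2 := Real.sq_sqrt hD.le
  have h2 : |x2| ≤ R := abs_le_of_sq hR0 hR2 (by nlinarith [sq_nonneg x1, sq_nonneg x3])
  unfold W
  rw [← hR2, abs_div, abs_mul, abs_of_pos (show (0 : ℝ) < R ^ 2 by positivity),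
    div_le_div_iff₀ (by positivity) hR0]
  have h5 : |Real.arctan x1| * |x2| ≤ 2 * R :=
    mul_le_mul (abs_arctan_le x1) h2 (abs_nonneg _) (by norm_num)
  have h6 := mul_le_mul_of_nonneg_right h5 hR0.le
  linarith

lemma W_deriv {x1 x2 x3 : ℝ → ℝ} (hx : Transmitter x1 x2 x3) {C1 : ℝ} (hC1 : 1 ≤ C1)
    (hC : ∀ t, 0 ≤ t → 1 + x1 t ^ 2 + x2 t ^ 2 + x3 t ^ 2 ≤ C1 * (1 + x1 t ^ 2 + x2 t ^ 2))
    {t : ℝ} (ht : 0 ≤ t) :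
    ∃ W' : ℝ, HasDerivAt (fun t => W (x1 t) (x2 t) (x3 t)) W' t ∧
      9 / C1 / (1 + x1 t ^ 2) - 157 / Real.sqrt (1 + x1 t ^ 2 + x2 t ^ 2 + x3 t ^ 2) ≤ W' := by
  obtain ⟨h1, h2, h3⟩ := transmitter_lin hx ht
  have hD : (0 : ℝ) < 1 + x1 t ^ 2 + x2 t ^ 2 + x3 t ^ 2 := by positivity
  have hder := ((h1.arctan.mul h2).div
    (((h1.pow 2).const_add 1).add (h2.pow 2) |>.add (h3.pow 2)) (by
      show 1 + x1 t ^ 2 + x2 t ^ 2 + x3 t ^ 2 ≠ 0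
      exact ne_of_gt hD))
  refine ⟨_, hder, ?_⟩
  set R := Real.sqrt (1 + x1 t ^ 2 + x2 t ^ 2 + x3 t ^ 2) with hR
  have hR0 : 0 < R := Real.sqrt_pos.mpr hD
  have hR2 : R ^ 2 = 1 + x1 t ^ 2 + x2 t ^ 2 + x3 t ^ 2 := Real.sq_sqrt hD.le
  have key := W_alg (x1 := x1 t) (x2 := x2 t) (x3 := x3 t) (θ := Real.arctan (x1 t))
    (σ := sat (x1 t)) hR0 hR2 hC1 (by rw [hR2]; exact hC t ht) (abs_arctan_le _) (abs_sat_le _)
  refine le_trans key (le_of_eq ?_)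
  have e : (1 + x1 t ^ 2 + x2 t ^ 2 + x3 t ^ 2) = R ^ 2 := hR2.symm
  simp only [Pi.mul_apply, Pi.add_apply, Pi.pow_apply, pow_one, Nat.cast_ofNat, Nat.add_one_sub_one]
  rw [e]

/-- The constant comparing `D` and `1 + x1² + x2²`. -/
lemma exists_C1 {x1 x2 x3 : ℝ → ℝ} (hx : Transmitter x1 x2 x3) :
    ∃ C1 : ℝ, 1 ≤ C1 ∧
      ∀ t, 0 ≤ t → 1 + x1 t ^ 2 + x2 t ^ 2 + x3 t ^ 2 ≤ C1 * (1 + x1 t ^ 2 + x2 t ^ 2) := by
  obtain ⟨ν, hν1, hν2, hν⟩ := exists_stable_root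
  obtain ⟨Z, hZ0, hZ⟩ := stable_bounded hx hν2 hν
  refine ⟨1 + 49 / 3 * Z ^ 2 + 2384 / 3, by nlinarith [sq_nonneg Z], ?_⟩
  intro t ht
  have h1 := le_trans (Complex.abs_re_le_norm _) (hZ t ht)
  have h2 : (Lf (ν : ℂ) (x1 t) (x2 t) (x3 t)).re
      = ν * x1 t + ν * (ν + 18 / 7) * x2 t + (ν + 18 / 7) * x3 t := by
    unfold Lf
    simp [Complex.add_im, Complex.mul_im, Complex.mul_re]
  rw [h2] at h1
  generalize x1 t = a at *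
  generalize x2 t = b at *
  generalize x3 t = d at *
  have h3 : 3 / 7 * |d| ≤ Z + 4 * |a| + 40 / 7 * |b| := by
    have g1 : |(ν + 18 / 7) * d| ≤ Z + |ν * a| + |ν * (ν + 18 / 7) * b| := by
      have e : (ν + 18 / 7) * d = (ν * a + ν * (ν + 18 / 7) * b + (ν + 18 / 7) * d)
          - ν * a - ν * (ν + 18 / 7) * b := by ring
      rw [e]
      have k1 := abs_sub ((ν * a + ν * (ν + 18 / 7) * b + (ν + 18 / 7) * d) - ν * a)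
        (ν * (ν + 18 / 7) * b)
      have k2 := abs_sub (ν * a + ν * (ν + 18 / 7) * b + (ν + 18 / 7) * d) (ν * a)
      linarith
    have g2 : 3 / 7 ≤ |ν + 18 / 7| := by
      rw [abs_of_neg (by linarith)]; linarith
    have g3 : |ν + 18 / 7| ≤ 10 / 7 := by
      rw [abs_of_neg (by linarith)]; linarith
    have g4 : |ν| ≤ 4 := by
      rw [abs_of_neg (by linarith)]; linarith
    rw [abs_mul, abs_mul, abs_mul, abs_mul] at g1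
    have g5 : 3 / 7 * |d| ≤ |ν + 18 / 7| * |d| := mul_le_mul_of_nonneg_right g2 (abs_nonneg _)
    have g6 : |ν| * |a| ≤ 4 * |a| := mul_le_mul_of_nonneg_right g4 (abs_nonneg _)
    have g7 : |ν| * |ν + 18 / 7| ≤ 4 * (10 / 7) := mul_le_mul g4 g3 (abs_nonneg _) (by norm_num)
    have g8 : |ν| * |ν + 18 / 7| * |b| ≤ 4 * (10 / 7) * |b| :=
      mul_le_mul_of_nonneg_right g7 (abs_nonneg _)
    linarith
  have h4 : |d| ≤ 7 / 3 * Z + 28 / 3 * |a| + 40 / 3 * |b| := by linarith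
  have h5 : d ^ 2 ≤ 3 * ((7 / 3 * Z) ^ 2 + (28 / 3 * |a|) ^ 2 + (40 / 3 * |b|) ^ 2) := by
    have k1 : d ^ 2 ≤ (7 / 3 * Z + 28 / 3 * |a| + 40 / 3 * |b|) ^ 2 := by
      rw [← sq_abs d]
      exact pow_le_pow_left₀ (abs_nonneg _) h4 2
    have k2 : (7 / 3 * Z + 28 / 3 * |a| + 40 / 3 * |b|) ^ 2
        ≤ 3 * ((7 / 3 * Z) ^ 2 + (28 / 3 * |a|) ^ 2 + (40 / 3 * |b|) ^ 2) := by
      generalize 7 / 3 * Z = p
      generalize 28 / 3 * |a| = q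
      generalize 40 / 3 * |b| = r
      nlinarith [sq_nonneg (p - q), sq_nonneg (q - r), sq_nonneg (p - r)]
    linarith
  have h6 : (28 / 3 * |a|) ^ 2 = 784 / 9 * a ^ 2 := by rw [mul_pow, sq_abs]; norm_num
  have h7 : (40 / 3 * |b|) ^ 2 = 1600 / 9 * b ^ 2 := by rw [mul_pow, sq_abs]; norm_num
  rw [h6, h7] at h5
  have h8 : 0 ≤ Z ^ 2 * a ^ 2 := by positivity
  have h9 : 0 ≤ Z ^ 2 * b ^ 2 := by positivity
  have h10 : 0 ≤ a ^ 2 := sq_nonneg _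
  have h11 : 0 ≤ b ^ 2 := sq_nonneg _
  linarith [show (1 + 49 / 3 * Z ^ 2 + 2384 / 3) * (1 + a ^ 2 + b ^ 2)
    = 1 + 49 / 3 * Z ^ 2 + 2384 / 3 + (1 + 2384 / 3) * a ^ 2 + (1 + 2384 / 3) * b ^ 2
      + 49 / 3 * (Z ^ 2 * a ^ 2) + 49 / 3 * (Z ^ 2 * b ^ 2) by ring]

end Pool.Agent.Helper67.Chua
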