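import Mathlib
import Pool.Agent.Helper67.ChuaLyap
import Pool.Agent.Helper67.ChuaW

set_option autoImplicit false
open Set Filter Topology Metric
open scoped NNReal

namespace Pool.Agent.Helper67.Chua

lemma sqrt_tendsto {x1 x2 x3 : ℝ → ℝ}
    (h : Tendsto (fun t => |x1 t| + |x2 t| + |x3 t|) atTop atTop) :
    Tendsto (fun t => Real.sqrt (1 + x1 t ^ 2 + x2 t ^ 2 + x3 t ^ 2)) atTop atTop := by
  have h1 : Tendsto (fun t => 1 / 3 * (|x1 t| + |x2 t| + |x3 t|)) atTop atTop :=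
    h.const_mul_atTop (by norm_num)
  refine tendsto_atTop_mono ?_ h1
  intro t
  have hD : (0 : ℝ) < 1 + x1 t ^ 2 + x2 t ^ 2 + x3 t ^ 2 := by positivity
  set R := Real.sqrt (1 + x1 t ^ 2 + x2 t ^ 2 + x3 t ^ 2) with hR
  have hR0 : 0 < R := Real.sqrt_pos.mpr hD
  have hR2 : R ^ 2 = 1 + x1 t ^ 2 + x2 t ^ 2 + x3 t ^ 2 := Real.sq_sqrt hD.le
  have g1 : |x1 t| ≤ R := abs_le_of_sq hR0 hR2 (by nlinarith [sq_nonneg (x2 t), sq_nonneg (x3 t)])
  have g2 : |x2 t| ≤ R := abs_le_of_sq hR0 hR2 (by nlinarith [sq_nonneg (x1 t), sq_nonneg (x3 t)])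
  have g3 : |x3 t| ≤ R := abs_le_of_sq hR0 hR2 (by nlinarith [sq_nonneg (x1 t), sq_nonneg (x2 t)])
  linarith

/-- Above the threshold every receiver synchronizes with every unbounded transmitter orbit. -/
theorem synchronize {k : ℝ} (hk : kStar < k) {x1 x2 x3 y1 y2 y3 : ℝ → ℝ}
    (hx : Transmitter x1 x2 x3) (hu : UnboundedOrbit x1 x2 x3) (hy : Receiver k x2 y1 y2 y3) :
    Tendsto (fun t => x1 t - y1 t) atTop (𝓝 0) ∧
    Tendsto (fun t => x2 t - y2 t) atTop (𝓝 0) ∧
    Tendsto (fun t => x3 t - y3 t) atTop (𝓝 0) := by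
  obtain ⟨hk0, hk1⟩ := kStar_lt hk
  obtain ⟨V, c, C, K, hc, hC0, hK, hVpos, hVd⟩ := exists_lyap (κ := 1 + k) (by linarith) hk1
  set v : ℝ → ℝ := fun t => V (y1 t - x1 t) (y2 t - x2 t) (y3 t - x3 t) with hv
  have hvK : ∀ t, (y1 t - x1 t) ^ 2 + (y2 t - x2 t) ^ 2 + (y3 t - x3 t) ^ 2 ≤ K * v t :=
    fun t => hVpos _ _ _
  have hv0 : ∀ t, 0 ≤ v t := by
    intro t
    have h1 := hvK t
    have h2 : 0 ≤ K * v t := le_trans (by positivity) h1
    exact (mul_nonneg_iff_of_pos_left hK).mp h2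
  have hd : ∀ t, 0 ≤ t → ∃ V' : ℝ, HasDerivAt v V' t ∧
      V' ≤ -c * v t + C * (sat (y1 t) - sat (x1 t)) ^ 2 := by
    intro t ht
    obtain ⟨e1, e2, e3⟩ := error_deriv hx hy ht
    exact hVd _ _ _ _ t e1 e2 e3
  choose! v' hv' hv'le using hd
  -- boundedness of v
  set B : ℝ := 4 * C / c + v 0 with hB
  have hB0 : 0 ≤ B := by
    have := hv0 0
    positivity
  have hvB : ∀ t, 0 ≤ t → v t ≤ B := by
    intro t ht
    have h1 := gronwall_decay (r := 4 * C) hc hv' (fun s hs => by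
      have h2 := hv'le s hs
      have h3 : (sat (y1 s) - sat (x1 s)) ^ 2 ≤ 4 := by
        have h4 := sat_sub_le (y1 s) (x1 s)
        rw [← sq_abs]
        have h5 := pow_le_pow_left₀ (abs_nonneg _) h4 2
        linarith
      have h6 := mul_le_mul_of_nonneg_left h3 hC0
      linarith) ht
    have h7 : Real.exp (-c * (t - 0)) ≤ 1 := by
      rw [Real.exp_le_one_iff]
      have : 0 ≤ c * t := by positivity
      linarith
    have h8 : (v 0 - 4 * C / c) * Real.exp (-c * (t - 0)) ≤ v 0 := by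
      have h9 : 0 ≤ Real.exp (-c * (t - 0)) := (Real.exp_pos _).le
      have h10 : 0 ≤ 4 * C / c := by positivity
      have h11 : (v 0 - 4 * C / c) * Real.exp (-c * (t - 0)) ≤ v 0 * Real.exp (-c * (t - 0)) :=
        mul_le_mul_of_nonneg_right (by linarith) h9
      have h12 : v 0 * Real.exp (-c * (t - 0)) ≤ v 0 * 1 :=
        mul_le_mul_of_nonneg_left h7 (hv0 0)
      linarith
    rw [hB]; linarith
  set E : ℝ := 1 + K * B with hE
  have hE1 : ∀ t, 0 ≤ t → |y1 t - x1 t| ≤ E := by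
    intro t ht
    have h1 := hvK t
    have h2 : K * v t ≤ K * B := mul_le_mul_of_nonneg_left (hvB t ht) hK.le
    have h3 : (y1 t - x1 t) ^ 2 ≤ K * B := by
      linarith [sq_nonneg (y2 t - x2 t), sq_nonneg (y3 t - x3 t)]
    rw [← sq_abs] at h3
    rw [hE]
    nlinarith [sq_nonneg (|y1 t - x1 t| - 1), abs_nonneg (y1 t - x1 t)]
  set M : ℝ := 2 * (1 + (1 + E) ^ 2) with hM
  have hM0 : 0 ≤ M := by rw [hM]; positivity
  have hs2 : ∀ t, 0 ≤ t → (sat (y1 t) - sat (x1 t)) ^ 2 ≤ M ^ 2 / (1 + x1 t ^ 2) := by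
    intro t ht
    have h1 := sat_diff_le (hE1 t ht)
    have hp : (0 : ℝ) < 1 + x1 t ^ 2 := by positivity
    rw [← sq_abs]
    have h2 := pow_le_pow_left₀ (abs_nonneg _) h1 2
    refine le_trans h2 ?_
    rw [div_pow]
    apply div_le_div_of_nonneg_left (by positivity) hp
    nlinarith [sq_nonneg (x1 t)]
  obtain ⟨C1, hC1, hC1D⟩ := exists_C1 hx
  have hwd : ∀ t, 0 ≤ t → ∃ W' : ℝ, HasDerivAt (fun t => W (x1 t) (x2 t) (x3 t)) W' t ∧
      9 / C1 / (1 + x1 t ^ 2) - 157 / Real.sqrt (1 + x1 t ^ 2 + x2 t ^ 2 + x3 t ^ 2) ≤ W' :=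
    fun t ht => W_deriv hx hC1 hC1D ht
  choose! w' hw' hw'le using hwd
  set C4 : ℝ := C * M ^ 2 * C1 / 9 with hC4
  have hC4pos : 0 ≤ C4 := by rw [hC4]; positivity
  set R : ℝ → ℝ := fun t => Real.sqrt (1 + x1 t ^ 2 + x2 t ^ 2 + x3 t ^ 2) with hR
  have hR0 : ∀ t, 0 < R t := fun t => Real.sqrt_pos.mpr (by positivity)
  have hRt : Tendsto R atTop atTop := sqrt_tendsto (unbounded_tendsto hx hu)
  set w : ℝ → ℝ := fun t => W (x1 t) (x2 t) (x3 t) with hw
  have hwle : ∀ t, |w t| ≤ 2 / R t := fun t => W_le _ _ _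
  -- G = v - C4 w
  have hr : Tendsto (fun t => (2 * c + 157) * C4 / R t) atTop (𝓝 0) :=
    Tendsto.div_atTop tendsto_const_nhds hRt
  have hlim : ∀ δ : ℝ, 0 < δ → ∀ᶠ t in atTop, v t - C4 * w t ≤ δ := by
    intro δ hδ
    refine limsup_nonpos (G := fun t => v t - C4 * w t) (G' := fun t => v' t - C4 * w' t)
      (r := fun t => (2 * c + 157) * C4 / R t) hc ?_ ?_ hr hδ
    · intro t ht
      exact (hv' t ht).sub ((hw' t ht).const_mul C4)
    · intro t ht
      have h1 := hv'le t ht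
      have h2 := mul_le_mul_of_nonneg_left (hs2 t ht) hC0
      have h3 := mul_le_mul_of_nonneg_left (hw'le t ht) hC4pos
      have h4 := hwle t
      rw [abs_le] at h4
      have h5 : C4 * (9 / C1 / (1 + x1 t ^ 2) - 157 / R t)
          = C * (M ^ 2 / (1 + x1 t ^ 2)) - 157 * C4 / R t := by
        have : C1 ≠ 0 := by linarith
        have : (1 + x1 t ^ 2) ≠ 0 := by positivity
        rw [hC4]
        field_simp
      have h3' : C * (M ^ 2 / (1 + x1 t ^ 2)) - 157 * C4 / R t ≤ C4 * w' t := by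
        rw [← h5]; exact h3
      have h6 : c * C4 * w t ≥ -(2 * c * C4 / R t) := by
        have h7 := mul_le_mul_of_nonneg_left h4.1 (show 0 ≤ c * C4 by positivity)
        have e : c * C4 * -(2 / R t) = -(2 * c * C4 / R t) := by ring
        linarith
      have h6' : -(2 * c * C4 / R t) ≤ c * C4 * w t := h6
      have h8 : c * C4 * w t ≤ 2 * c * C4 / R t := by
        have h7 := mul_le_mul_of_nonneg_left h4.2 (show 0 ≤ c * C4 by positivity)
        have e : c * C4 * (2 / R t) = 2 * c * C4 / R t := by ring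
        linarith
      have e9 : (2 * c + 157) * C4 / R t = 2 * c * C4 / R t + 157 * C4 / R t := by ring
      show v' t - C4 * w' t ≤ -c * (v t - C4 * w t) + (2 * c + 157) * C4 / R t
      rw [e9]
      linarith
  have hC4w : Tendsto (fun t => C4 * (2 / R t)) atTop (𝓝 0) := by
    have h1 : Tendsto (fun t => 2 / R t) atTop (𝓝 0) := Tendsto.div_atTop tendsto_const_nhds hRt
    have := h1.const_mul C4
    rwa [mul_zero] at this
  have hvlim : Tendsto v atTop (𝓝 0) := by
    rw [tendsto_order]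
    constructor
    · intro a ha
      exact Eventually.of_forall fun t => lt_of_lt_of_le ha (hv0 t)
    · intro a ha
      have h1 := hlim (a / 3) (by positivity)
      have h2 := hC4w.eventually (gt_mem_nhds (show (0 : ℝ) < a / 3 by positivity))
      filter_upwards [h1, h2] with t g1 g2
      have g3 := mul_le_mul_of_nonneg_left (le_trans (le_abs_self _) (hwle t)) hC4pos
      linarith
  have hKv : Tendsto (fun t => K * v t) atTop (𝓝 0) := by
    have := hvlim.const_mul K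
    rwa [mul_zero] at this
  have conv : ∀ a b : ℝ → ℝ, (∀ t, (b t - a t) ^ 2 ≤ K * v t) →
      Tendsto (fun t => a t - b t) atTop (𝓝 0) := by
    intro a b hab
    rw [tendsto_zero_iff_abs_tendsto_zero]
    have h1 : Tendsto (fun t => Real.sqrt (K * v t)) atTop (𝓝 0) := by
      have := (Real.continuous_sqrt.tendsto 0).comp hKv
      rwa [Real.sqrt_zero] at this
    refine squeeze_zero (fun t => abs_nonneg _) (fun t => ?_) h1
    show |a t - b t| ≤ Real.sqrt (K * v t)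
    apply Real.abs_le_sqrt
    have := hab t
    nlinarith
  refine ⟨conv _ _ fun t => ?_, conv _ _ fun t => ?_, conv _ _ fun t => ?_⟩
  · linarith [hvK t, sq_nonneg (y2 t - x2 t), sq_nonneg (y3 t - x3 t)]
  · linarith [hvK t, sq_nonneg (y1 t - x1 t), sq_nonneg (y3 t - x3 t)]
  · linarith [hvK t, sq_nonneg (y1 t - x1 t), sq_nonneg (y2 t - x2 t)]

end Pool.Agent.Helper67.Chua
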