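import Mathlib
import Pool.Agent.Helper67.ChuaSync

set_option autoImplicit false
open Set Filter Topology Metric MeasureTheory
open scoped NNReal

namespace Pool.Agent.Helper67.Chua

/-- Above the threshold all errors are ultimately bounded by a constant depending only on `k`. -/
theorem ultimately_bounded {k : ℝ} (hk : kStar < k) :
    ∃ B : ℝ, ∀ x1 x2 x3 y1 y2 y3 : ℝ → ℝ, Transmitter x1 x2 x3 → Receiver k x2 y1 y2 y3 →
      ∀ᶠ t in atTop, |x1 t - y1 t| + |x2 t - y2 t| + |x3 t - y3 t| ≤ B := by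
  obtain ⟨hk0, hk1⟩ := kStar_lt hk
  obtain ⟨V, c, C, K, hc, hC0, hK, hVpos, hVd⟩ := exists_lyap (κ := 1 + k) (by linarith) hk1
  refine ⟨3 * (1 + K * (4 * C / c + 1)), ?_⟩
  intro x1 x2 x3 y1 y2 y3 hx hy
  set v : ℝ → ℝ := fun t => V (y1 t - x1 t) (y2 t - x2 t) (y3 t - x3 t) with hv
  have hvK : ∀ t, (y1 t - x1 t) ^ 2 + (y2 t - x2 t) ^ 2 + (y3 t - x3 t) ^ 2 ≤ K * v t :=
    fun t => hVpos _ _ _
  have hd : ∀ t, 0 ≤ t → ∃ V' : ℝ, HasDerivAt v V' t ∧
      V' ≤ -c * v t + C * (sat (y1 t) - sat (x1 t)) ^ 2 := by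
    intro t ht
    obtain ⟨e1, e2, e3⟩ := error_deriv hx hy ht
    exact hVd _ _ _ _ t e1 e2 e3
  choose! v' hv' hv'le using hd
  have h1 : ∀ t, 0 ≤ t → v t ≤ 4 * C / c + (v 0 - 4 * C / c) * Real.exp (-c * (t - 0)) := by
    intro t ht
    refine gronwall_decay (r := 4 * C) hc hv' (fun s hs => by
      have h2 := hv'le s hs
      have h3 : (sat (y1 s) - sat (x1 s)) ^ 2 ≤ 4 := by
        have h4 := sat_sub_le (y1 s) (x1 s)
        rw [← sq_abs]
        have h5 := pow_le_pow_left₀ (abs_nonneg _) h4 2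
        linarith
      have h6 := mul_le_mul_of_nonneg_left h3 hC0
      linarith) ht
  have hexp : Tendsto (fun t : ℝ => 4 * C / c + (v 0 - 4 * C / c) * Real.exp (-c * (t - 0))) atTop
      (𝓝 (4 * C / c + (v 0 - 4 * C / c) * 0)) := by
    apply Tendsto.const_add
    apply Tendsto.const_mul
    apply Real.tendsto_exp_atBot.comp
    have h2 : Tendsto (fun t : ℝ => c * t) atTop atTop := tendsto_id.const_mul_atTop hc
    have h3 := tendsto_neg_atTop_atBot.comp h2
    refine h3.congr ?_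
    intro t
    simp
  have hlt : 4 * C / c + (v 0 - 4 * C / c) * 0 < 4 * C / c + 1 := by
    rw [mul_zero]; linarith
  filter_upwards [hexp.eventually (gt_mem_nhds hlt), eventually_ge_atTop 0] with t g1 g2
  have g3 : v t ≤ 4 * C / c + 1 := le_trans (h1 t g2) g1.le
  have g4 := mul_le_mul_of_nonneg_left g3 hK.le
  have g5 := hvK t
  have sqb : ∀ a : ℝ, |a| ≤ 1 + a ^ 2 := by
    intro a
    rw [← sq_abs]; nlinarith [sq_nonneg (|a| - 1), abs_nonneg a]
  have b1 := sqb (y1 t - x1 t)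
  have b2 := sqb (y2 t - x2 t)
  have b3 := sqb (y3 t - x3 t)
  rw [abs_sub_comm (x1 t), abs_sub_comm (x2 t), abs_sub_comm (x3 t)]
  have s1 := sq_nonneg (y1 t - x1 t)
  have s2 := sq_nonneg (y2 t - x2 t)
  have s3 := sq_nonneg (y3 t - x3 t)
  linarith

/-- The set of initial points with unbounded transmitter orbit has infinite volume. -/
theorem volume_unbounded :
    volume {x₀ : Fin 3 → ℝ | ∃ x1 x2 x3 : ℝ → ℝ, (x1 0 = x₀ 0 ∧ x2 0 = x₀ 1 ∧ x3 0 = x₀ 2) ∧
      Transmitter x1 x2 x3 ∧ UnboundedOrbit x1 x2 x3} = ⊤ := by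
  obtain ⟨l, hl, hσ⟩ := exists_unstable_root (κ := 1) (by norm_num) (by norm_num)
  have hl1 : (l + 18 / 7) * (l ^ 2 + 1 * l + 100 / 7) = 9 * l := by
    rw [Complex.ofReal_one] at hl; exact hl
  have him := unstable_root_im_ne hl1 hσ
  have hω : 0 < |l.im| := abs_pos.mpr him
  set m : ℝ := (27 / 7 * ‖l‖ / l.re + 1) / |l.im| with hm
  have hm0 : 0 ≤ m := by positivity
  have hsub : Set.pi univ (fun _ : Fin 3 => Ioi m) ⊆
      {x₀ : Fin 3 → ℝ | ∃ x1 x2 x3 : ℝ → ℝ, (x1 0 = x₀ 0 ∧ x2 0 = x₀ 1 ∧ x3 0 = x₀ 2) ∧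
      Transmitter x1 x2 x3 ∧ UnboundedOrbit x1 x2 x3} := by
    intro x₀ hx₀
    have h0 : m < x₀ 0 := hx₀ 0 (mem_univ _)
    have h1 : m < x₀ 1 := hx₀ 1 (mem_univ _)
    have h2 : m < x₀ 2 := hx₀ 2 (mem_univ _)
    obtain ⟨x1, x2, x3, i1, i2, i3, hx⟩ := exists_transmitter x₀
    refine ⟨x1, x2, x3, ⟨i1, i2, i3⟩, hx, ?_⟩
    set z : ℝ → ℂ := fun t => Lf l (x1 t) (x2 t) (x3 t) with hz
    have hzd : ∀ t, 0 ≤ t → HasDerivAt z
        (l * z t + (fun t => 27 / 7 * l * ((sat (x1 t) : ℝ) : ℂ)) t) t := by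
      intro t ht
      obtain ⟨e1, e2, e3⟩ := transmitter_lin hx ht
      exact Lf_hasDerivAt (κ := 1) hl (s := fun t => sat (x1 t)) e1 e2 e3
    have hw : ∀ t, 0 ≤ t → ‖(fun t => 27 / 7 * l * ((sat (x1 t) : ℝ) : ℂ)) t‖
        ≤ 27 / 7 * ‖l‖ := by
      intro t ht
      show ‖27 / 7 * l * ((sat (x1 t) : ℝ) : ℂ)‖ ≤ _
      rw [norm_mul, norm_mul, Complex.norm_real, Real.norm_eq_abs]
      have h2 := abs_sat_le (x1 t)
      have h3 : ‖(27 / 7 : ℂ)‖ = 27 / 7 := by norm_num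
      have h4 := norm_nonneg l
      rw [h3]
      nlinarith
    have hz0 : 27 / 7 * ‖l‖ / l.re + 1 < ‖z 0‖ := by
      have him1 : (z 0).im = l.im * ((2 * l.re + 18 / 7) * x₀ 1 + x₀ 0 + x₀ 2) := by
        simp only [hz]
        unfold Lf
        rw [i1, i2, i3]
        simp [Complex.add_im, Complex.mul_im, Complex.mul_re]
        ring
      refine lt_of_lt_of_le ?_ (Complex.abs_im_le_norm _)
      rw [him1, abs_mul]
      have h5 : m < |(2 * l.re + 18 / 7) * x₀ 1 + x₀ 0 + x₀ 2| := by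
        refine lt_of_lt_of_le ?_ (le_abs_self _)
        have : 0 ≤ (2 * l.re + 18 / 7) * x₀ 1 := by
          apply mul_nonneg <;> linarith
        linarith
      have h6 : 27 / 7 * ‖l‖ / l.re + 1 = |l.im| * m := by
        rw [hm]; field_simp
      rw [h6]
      exact mul_lt_mul_of_pos_left h5 hω
    set C : ℝ := ‖l‖ + ‖l * (l + 18 / 7)‖ + ‖l + 18 / 7‖ with hC
    have hl0 : 0 < ‖l‖ := by
      rw [norm_pos_iff]
      rintro rfl
      simp at hσ
    have hCpos : 0 < C := by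
      have := norm_nonneg (l * (l + 18 / 7))
      have := norm_nonneg (l + 18 / 7)
      linarith
    have hbound : ∀ t, 0 ≤ t → 1 / C * Real.exp (l.re * t) ≤ |x1 t| + |x2 t| + |x3 t| := by
      intro t ht
      have h1 := growth_bound (t0 := 0) hσ (by positivity) hzd hw ht
      have h1' : 1 * Real.exp (l.re * (t - 0)) ≤ ‖z t‖ := by
        refine le_trans ?_ h1
        apply mul_le_mul_of_nonneg_right _ (Real.exp_pos _).le
        linarith
      rw [sub_zero] at h1'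
      have h2 := norm_Lf_le l (x1 t) (x2 t) (x3 t)
      have h3 : 1 * Real.exp (l.re * t) ≤ C * (|x1 t| + |x2 t| + |x3 t|) :=
        le_trans h1' h2
      rw [div_mul_eq_mul_div, div_le_iff₀ hCpos]
      linarith
    have hexp : Tendsto (fun t : ℝ => 1 / C * Real.exp (l.re * t)) atTop atTop := by
      apply Tendsto.const_mul_atTop (by positivity)
      apply Real.tendsto_exp_atTop.comp
      exact tendsto_id.const_mul_atTop hσ
    intro D
    obtain ⟨T, hT⟩ := ((hexp.eventually (eventually_gt_atTop D)).and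
      (eventually_ge_atTop 0)).exists
    exact ⟨T, hT.2, lt_of_lt_of_le hT.1 (hbound T hT.2)⟩
  apply top_unique
  refine le_trans ?_ (measure_mono hsub)
  rw [volume_pi_pi]
  simp

end Pool.Agent.Helper67.Chua
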